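import Pool.Agent.U259.DP.QuoA
import Pool.Agent.N78.DIBL

/-!
# The alternating sum vanishes if the chains do not start at the largest normal `p`-subgroup
-/

set_option autoImplicit false
set_option linter.unusedSectionVars false

open scoped Classical BigOperators

noncomputable section

namespace Pool.Agent.U259.DP

open Pool.Agent.Q99.AS
open Pool.Agent.Y63.KR
open Pool.Agent.N78.DIBL (card_mul_alt alt_normal)

theorem alt_bot {G : Type} [Group G] [Finite G] {p : ℕ} {f : Subgroup G → ℤ} (hf : ConjInv f) :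
    altSum p (⊥ : Subgroup G) f = alternatingSum p G f := by
  have _f1 : Fintype {σ : Set (Subgroup G) // IsCh p (⊥ : Subgroup G) σ} := Fintype.ofFinite _
  have _f2 : Fintype {σ : Set (Subgroup G) // IsPChain p σ} := Fintype.ofFinite _
  have e1 := card_mul_altSum (p := p) (O := (⊥ : Subgroup G)) inferInstance f hf
  have e2 := card_mul_alt (p := p) f hf
  have h0 : (Nat.card G : ℤ) ≠ 0 := by exact_mod_cast Nat.card_pos.ne'
  refine mul_left_cancel₀ h0 ?_
  rw [e1, e2]
  refine Finset.sum_bij (fun σ _ => ⟨σ.1, σ.2.chain, σ.2.isPGroup, fun P hP => (σ.2.lt P hP).ne'⟩)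
    (fun _ _ => Finset.mem_univ _) (fun σ _ τ _ h => Subtype.ext (Subtype.mk.inj h)) ?_
    (fun _ _ => rfl)
  intro σ _
  exact ⟨⟨σ.1, σ.2.chain, σ.2.isPGroup, fun P hP => bot_lt_iff_ne_bot.2 (σ.2.ne_bot P hP)⟩,
    Finset.mem_univ _, rfl⟩

theorem comap_conj {G Q : Type} [Group G] [Group Q] (π : G →* Q) (g : G) (H : Subgroup Q) :
    (conjSub (π g) H).comap π = conjSub g (H.comap π) := by
  ext x
  constructor
  · rintro ⟨h, hh, hx⟩
    have hx' : π g * h * (π g)⁻¹ = π x := hx
    refine ⟨g⁻¹ * x * g, ?_, by simp [mul_assoc]⟩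
    change π (g⁻¹ * x * g) ∈ H
    have e : π (g⁻¹ * x * g) = h := by
      rw [map_mul, map_mul, map_inv, ← hx']
      group
    rw [e]
    exact hh
  · rintro ⟨y, hy, rfl⟩
    exact ⟨π y, hy, by simp⟩

/-- **Quillen's contraction** -/
theorem quillen {G : Type} [Group G] [Finite G] {p : ℕ} [Fact p.Prime] {O P : Subgroup G}
    [hOn : O.Normal] (hO : IsPGroup p O) (hPn : P.Normal) (hP : IsPGroup p P) (hPO : ¬ P ≤ O)
    {f : Subgroup G → ℤ} (hf : ConjInv f) : altSum p O f = 0 := by
  have hπ : Function.Surjective (QuotientGroup.mk' O) := QuotientGroup.mk'_surjective O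
  have hker : (QuotientGroup.mk' O).ker = O := QuotientGroup.ker_mk' O
  have hkp : IsPGroup p (QuotientGroup.mk' O).ker := by rw [hker]; exact hO
  let f' : Subgroup (G ⧸ O) → ℤ := fun H => f (H.comap (QuotientGroup.mk' O))
  have hf' : ConjInv f' := by
    intro y H
    obtain ⟨g, rfl⟩ := hπ y
    change f ((conjSub ((QuotientGroup.mk' O) g) H).comap (QuotientGroup.mk' O)) = _
    rw [comap_conj, hf]
  have h1 := altSum_quot (p := p) hπ hkp (O := O) (by rw [hker]) hOn hf hf' fun H hH => by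
    change f H = f ((H.map (QuotientGroup.mk' O)).comap (QuotientGroup.mk' O))
    rw [Subgroup.comap_map_eq_self hH]
  have h2 : O.map (QuotientGroup.mk' O) = ⊥ := by
    rw [Subgroup.map_eq_bot_iff, hker]
  rw [h1, h2, alt_bot hf']
  refine alt_normal (hPn.map _ hπ) (hP.map _) ?_ f' hf'
  intro h3
  rw [Subgroup.map_eq_bot_iff, hker] at h3
  exact hPO h3

end Pool.Agent.U259.DP
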