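import Pool.Agent.U259.DP.Dom
import Pool.Agent.U259.DP.Qui

/-!
# Dade's projective conjecture without the central character
-/

set_option autoImplicit false
set_option linter.unusedSectionVars false

open scoped Classical BigOperators

noncomputable section

namespace Pool.Agent.U259.DP

open Pool.Agent.Y63.NV (redC)
open Pool.Agent.Helper884.IC
open Pool.Agent.Q99.AS
open Pool.Agent.Y63.KR (conjSub chainStabilizer)

variable {F : Type} [Field F] (red : integralClosure ℤ ℂ →+* F)

/-- the defect groups of the block of `χ` are larger than `O` -/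
def Bg (p : ℕ) {G : Type} [Group G] (O : Subgroup G) (χ : G → ℂ) : Prop :=
  ∀ g : G, ¬ p ∣ orderOf g → lam red (MonoidHom.id G) χ g ≠ 0 →
    Nat.card O < p ^ (Nat.card (Subgroup.centralizer ({g} : Set G))).factorization p

section quot

variable {G Q : Type} [Group G] [Group Q] [Finite G] {π : G →* Q} (hπ : Function.Surjective π)
  {p : ℕ} [hp : Fact p.Prime] (hker : IsPGroup p π.ker) (hc : π.ker ≤ Subgroup.center G)
include hπ hker hc

theorem map_cent {g : G} (hg : ¬ p ∣ orderOf g) :
    (Subgroup.centralizer ({g} : Set G)).map π = Subgroup.centralizer ({π g} : Set Q) := by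
  ext y
  constructor
  · rintro ⟨c, hc', rfl⟩
    rw [SetLike.mem_coe, Subgroup.mem_centralizer_singleton_iff] at hc'
    rw [Subgroup.mem_centralizer_singleton_iff]
    rw [← map_mul, ← map_mul, hc']
  · intro hy
    obtain ⟨c, rfl⟩ := hπ y
    refine ⟨c, ?_, rfl⟩
    rw [Subgroup.mem_centralizer_singleton_iff] at hy
    have h1 : π (c * g * c⁻¹) = π g := by
      rw [map_mul, map_mul, map_inv, mul_inv_eq_iff_eq_mul]
      exact hy
    have h2 : c * g * c⁻¹ = g := by
      refine reg_inj hker hc (p := p) ?_ hg h1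
      rwa [← orderOf_conj (isConj_iff.2 ⟨c, rfl⟩)]
    change c ∈ Subgroup.centralizer ({g} : Set G)
    rw [Subgroup.mem_centralizer_singleton_iff]
    have h3 := mul_inv_eq_iff_eq_mul.1 h2
    exact h3

theorem bg_quot {O : Subgroup G} (hO : π.ker ≤ O) {χ : G → ℂ} {χ' : Q → ℂ}
    (hχ : ∀ g : G, ¬ p ∣ orderOf g →
      lam red (MonoidHom.id Q) χ' (π g) = lam red (MonoidHom.id G) χ g) (h : Bg red p O χ) :
    Bg red p (O.map π) χ' := by
  have _q : Finite Q := Finite.of_surjective π hπ
  intro y hy hne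
  obtain ⟨g, rfl, hg⟩ := reg_lift hπ hy
  rw [hχ g hg] at hne
  have h1 := h g hg hne
  have hcen : π.ker ≤ Subgroup.centralizer ({g} : Set G) := by
    intro z hz
    rw [Subgroup.mem_centralizer_singleton_iff]
    have h3 := Subgroup.mem_center_iff.1 (hc hz) g
    first
      | exact h3
      | exact h3.symm
  have h2 := card_map' hπ hcen
  rw [map_cent hπ hker hc hg] at h2
  obtain ⟨k, hk⟩ := IsPGroup.iff_card.1 hker
  rw [h2, card_map' hπ hO, hk, Nat.factorization_mul (pow_ne_zero k hp.out.ne_zero)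
    Nat.card_pos.ne', Nat.factorization_pow, Finsupp.add_apply, Finsupp.smul_apply,
    hp.out.factorization_self, smul_eq_mul, mul_one, pow_add] at h1
  exact Nat.lt_of_mul_lt_mul_left h1

end quot

variable {p : ℕ} [hp : Fact p.Prime] [CharP F p]

/-- all characters -/
theorem asum_bot {G : Type} [Group G] (O : Subgroup G) (χ : G → ℂ) (d : ℕ) :
    asum p red O χ d (fun _ ϑ => InKer ⊥ ϑ) = asum p red O χ d (fun _ _ => True) := by
  unfold asum
  congr 1
  funext H
  unfold nm
  congr 1
  refine Nat.card_congr (Equiv.subtypeEquivRight fun ϑ => and_congr_right fun _ =>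
    and_congr_right fun _ => and_congr_right fun _ => ?_)
  constructor
  · intro _
    trivial
  · intro _ z hz hH
    have h1 : z = 1 := Subgroup.mem_bot.1 hz
    subst h1
    rfl

/-- **The central character can be left out** -/
theorem main {X : ∀ (G : Type) [Group G], Prop}
    (hX : ∀ (G : Type) [Group G] [Finite G], X G → ∀ (K : Subgroup G) [K.Normal],
      K ≤ Subgroup.center G → IsPGroup p K → X (G ⧸ K)) :
    (∀ (G : Type) [Group G] [Finite G], X G → ∀ (Z O : Subgroup G) (μ : Z → ℂ) (χ : G → ℂ),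
      Z ≤ Subgroup.center G → IsSyl p O Z → IsIrrChar μ → IsIrrChar χ → Bg red p O χ →
        ∀ d, asum p red O χ d (fun _ ϑ => Over μ ϑ) = 0) ↔
    ∀ (G : Type) [Group G] [Finite G], X G → ∀ (O : Subgroup G) (χ : G → ℂ),
      O ≤ Subgroup.center G → IsPGroup p O → IsCyclic O →
      (∀ P : Subgroup G, P.Normal → IsPGroup p P → P ≤ O) → IsIrrChar χ → Bg red p O χ →
        ∀ d, asum p red O χ d (fun _ _ => True) = 0 := by
  constructor
  · intro h G _ _ hG O χ hO hOp _ _ hχ hb d
    have _f : Fintype O := Fintype.ofFinite O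
    rw [← asum_bot, asum_ker red (p := p) hO (bot_le : ⊥ ≤ O)]
    refine Finset.sum_eq_zero fun μ hμ => ?_
    rw [Finset.mem_filter, mem_Irr] at hμ
    exact h G hG O O μ χ hO ⟨le_rfl, hOp, fun P hP _ => hP⟩ hμ.1 hχ hb d
  · intro h G _ _ hG Z O μ χ hZ hO hμ hχ hb d
    have _f : Fintype G := Fintype.ofFinite G
    refine all_of_ker red hZ hO (fun K hK hcy => ?_) hμ
    have hKc : K ≤ Subgroup.center G := hK.trans (hO.1.trans hZ)
    have hKn : K.Normal := ⟨fun x hx g => by
      rw [Subgroup.mem_center_iff.1 (hKc hx) g, mul_inv_cancel_right]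
      exact hx⟩
    have hKp : IsPGroup p K := hO.2.1.to_le hK
    have _fq : Fintype (G ⧸ K) := Fintype.ofFinite _
    have hπ : Function.Surjective (QuotientGroup.mk' K) := QuotientGroup.mk'_surjective K
    have hker : (QuotientGroup.mk' K).ker = K := QuotientGroup.ker_mk' K
    have hkp : IsPGroup p (QuotientGroup.mk' K).ker := by rw [hker]; exact hKp
    have hkc : (QuotientGroup.mk' K).ker ≤ Subgroup.center G := by rw [hker]; exact hKc
    obtain ⟨k, hk⟩ := IsPGroup.iff_card.1 hkp
    have hOn : O.Normal := ⟨fun x hx g => by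
      rw [Subgroup.mem_center_iff.1 (hZ (hO.1 hx)) g, mul_inv_cancel_right]
      exact hx⟩
    obtain ⟨χ', hχ', hlam⟩ := dom hπ hkp hkc red hχ
    have e : (fun (H : Subgroup G) (ϑ : H → ℂ) => InKer K ϑ) =
        fun (H : Subgroup G) (ϑ : H → ℂ) => InKer (QuotientGroup.mk' K).ker ϑ := by
      rw [hker]
    rw [e]
    by_cases hd : d < k
    · exact asum_small red hπ hkc hk hd
    · obtain ⟨d', rfl⟩ := Nat.exists_eq_add_of_le (not_lt.1 hd)
      rw [asum_quot red hπ hkp hkc hk (by rw [hker]; exact hK) hOn hlam]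
      by_cases hop : ∀ P : Subgroup (G ⧸ K), P.Normal → IsPGroup p P →
          P ≤ O.map (QuotientGroup.mk' K)
      swap
      · push Not at hop
        obtain ⟨P, hPn, hPp, hPO⟩ := hop
        have _n : (O.map (QuotientGroup.mk' K)).Normal := hOn.map _ hπ
        exact quillen (hO.2.1.map _) hPn hPp hPO (nm_conj red _ _ fun _ _ _ => Iff.rfl)
      refine h (G ⧸ K) (hX G hG K hKc hKp) (O.map (QuotientGroup.mk' K)) χ' ?_
        (hO.2.1.map _) ?_ hop hχ' (bg_quot red hπ hkp hkc (by rw [hker]; exact hK) hlam hb) d'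
      · rintro _ ⟨z, hz, rfl⟩
        rw [Subgroup.mem_center_iff]
        intro y
        obtain ⟨y, rfl⟩ := hπ y
        rw [← map_mul, ← map_mul, Subgroup.mem_center_iff.1 (hZ (hO.1 hz)) y]
      · obtain ⟨z₀, hz₀, hcyc⟩ := hcy
        let w : O.map (QuotientGroup.mk' K) :=
          ⟨QuotientGroup.mk' K z₀, Subgroup.mem_map_of_mem _ hz₀⟩
        refine ⟨w, ?_⟩
        rintro ⟨y, hy⟩
        obtain ⟨z, hz, hzy⟩ := id hy
        obtain ⟨j, hj⟩ := hcyc z hz
        have hj' : z * (z₀ ^ j)⁻¹ ∈ (QuotientGroup.mk' K).ker := by rw [hker]; exact hj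
        rw [MonoidHom.mem_ker, map_mul, map_inv, mul_inv_eq_one, map_pow] at hj'
        have hw : w ^ j = ⟨y, hy⟩ := Subtype.ext (hj'.symm.trans hzy)
        exact ⟨j, (zpow_natCast w j).trans hw⟩

end Pool.Agent.U259.DP
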