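import Pool.Agent.U259.DP.Ind
import Mathlib.GroupTheory.FiniteAbelian.Duality
import Mathlib.Analysis.Complex.Polynomial.Basic

/-!
# The alternating sums over a central character from the sums with a central subgroup in the kernel
-/

set_option autoImplicit false
set_option linter.unusedSectionVars false

open scoped Classical BigOperators

noncomputable section

namespace Pool.Agent.U259.DP

open Pool.Agent.Y63.NV (redC)
open Pool.Agent.Helper884.IC
open Pool.Agent.Q99.AS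
open Pool.Agent.Y63.KR (conjSub chainStabilizer)

/-- the `p`-part and the `p'`-part of the elements of a finite group -/
theorem parts' {G : Type} [Group G] {p n : ℕ} (hp : p.Prime) (hn : n ≠ 0) :
    ∃ u v : ℕ, ∀ z : G, z ^ n = 1 → z = z ^ u * z ^ v ∧ (z ^ u) ^ p ^ n.factorization p = 1 ∧
      (z ^ v) ^ (n / p ^ n.factorization p) = 1 := by
  have hcop : (p ^ n.factorization p).Coprime (n / p ^ n.factorization p) :=
    (Nat.coprime_ordCompl hp hn).pow_left _
  have hmul : p ^ n.factorization p * (n / p ^ n.factorization p) = n :=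
    Nat.ordProj_mul_ordCompl_eq_self n p
  obtain ⟨u, u1, u2⟩ := Nat.chineseRemainder hcop 1 0
  obtain ⟨v, v1, v2⟩ := Nat.chineseRemainder hcop 0 1
  have e : u + v ≡ 1 [MOD n] := by
    rw [← hmul, ← Nat.modEq_and_modEq_iff_modEq_mul hcop]
    exact ⟨by simpa using u1.add v1, by simpa using u2.add v2⟩
  obtain ⟨c, hc⟩ := Nat.modEq_zero_iff_dvd.mp u2
  obtain ⟨d, hd⟩ := Nat.modEq_zero_iff_dvd.mp v1
  refine ⟨u, v, fun z hz => ⟨?_, ?_, ?_⟩⟩
  · rw [← pow_add]
    have h1 : z ^ (u + v) = z ^ 1 := by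
      rw [pow_eq_pow_iff_modEq]
      exact e.of_dvd (orderOf_dvd_of_pow_eq_one hz)
    rw [h1, pow_one]
  · rw [← pow_mul, hc, mul_right_comm, mul_comm (n / p ^ n.factorization p), hmul, pow_mul, hz,
      one_pow]
  · rw [← pow_mul, hd, mul_right_comm, hmul, pow_mul, hz, one_pow]

theorem lin_pow {A : Type} [Group A] {ν : A → ℂ} (h1 : ν 1 = 1)
    (hm : ∀ a b, ν (a * b) = ν a * ν b) (x : A) (n : ℕ) : ν (x ^ n) = ν x ^ n := by
  induction n with
  | zero => rw [pow_zero, pow_zero, h1]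
  | succ n ih => rw [pow_succ, pow_succ, hm, ih]

variable {G : Type} [Group G] [Finite G] {F : Type} [Field F] (red : integralClosure ℤ ℂ →+* F)
  {p : ℕ} [hp : Fact p.Prime] [CharP F p] {O Z : Subgroup G} (hZ : Z ≤ Subgroup.center G)
  (hO : IsSyl p O Z)

include hZ hO

/-- the number of the characters of `Z` under the block with `K` in the kernel -/
theorem card_tr {χ : G → ℂ} {μ₀ : Z → ℂ} (h₀ : IsIrrChar μ₀) (hR : Rt red p χ μ₀)
    {K : Subgroup G} (hK : K ≤ O) :
    Nat.card {μ : Z → ℂ // IsIrrChar μ ∧ Tr K μ ∧ Rt red p χ μ} * Nat.card K = Nat.card O := by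
  have hne : Nat.card G ≠ 0 := Nat.card_pos.ne'
  obtain ⟨u, v, huv⟩ := parts' (G := G) hp.out hne
  have hall : ∀ z : G, z ^ Nat.card G = 1 := fun z => pow_card_eq_one'
  have hreg : ∀ z : G, ¬ p ∣ orderOf (z ^ v) := fun z =>
    reg_of_pow hp.out hne (huv z (hall z)).2.2
  have hmem : ∀ z : Z, ((z ^ u : Z) : G) ∈ O := fun z =>
    mem_syl hO (z ^ u).2 (huv z.1 (hall z.1)).2.1
  have hcomm : ∀ a b : Z, a * b = b * a := fun a b =>
    Subtype.ext (Subgroup.mem_center_iff.1 (hZ b.2) a.1)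
  have hcomm' : ∀ a b : O, a * b = b * a := fun a b =>
    Subtype.ext (Subgroup.mem_center_iff.1 (hZ (hO.1 b.2)) a.1)
  let _c : CommGroup O := { (inferInstance : Group O) with mul_comm := hcomm' }
  let i : O → Z := fun x => ⟨x.1, hO.1 x.2⟩
  obtain ⟨a1, am⟩ := lin_of hZ h₀
  let K' : Subgroup O := K.subgroupOf O
  -- a character of `O / K` for each character of `Z`
  have hto : ∀ μ : {μ : Z → ℂ // IsIrrChar μ ∧ Tr K μ ∧ Rt red p χ μ},
      ∃ ν : (O ⧸ K') →* ℂˣ, ∀ x : O, ((ν (QuotientGroup.mk x) : ℂˣ) : ℂ) = μ.1 (i x) := by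
    rintro ⟨μ, h1, h2, h3⟩
    obtain ⟨b1, bm⟩ := lin_of hZ h1
    let l : O →* ℂˣ := MonoidHom.toHomUnits ⟨⟨fun x => μ (i x), b1⟩, fun a b => bm (i a) (i b)⟩
    have hl : ∀ a, ((l a : ℂˣ) : ℂ) = μ (i a) := fun a => rfl
    refine ⟨QuotientGroup.lift K' l fun x hx => ?_, fun x => rfl⟩
    apply Units.ext
    rw [Units.val_one]
    change μ (i x) = 1
    exact h2 (i x) (Subgroup.mem_subgroupOf.1 hx)
  choose f hf using hto
  have hbij : Function.Bijective f := by
    constructor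
    · rintro ⟨μ, h1, h2, h3⟩ ⟨μ', h1', h2', h3'⟩ e
      apply Subtype.ext
      funext z
      obtain ⟨b1, bm⟩ := lin_of hZ h1
      obtain ⟨c1, cm⟩ := lin_of hZ h1'
      have e1 : z = z ^ u * z ^ v := Subtype.ext (huv z.1 (hall z.1)).1
      have e2 : μ (z ^ v) = μ' (z ^ v) := rt_eq red hZ hO h1 h1' h3 h3' (z ^ v) (hreg z.1)
      have e3 : μ (z ^ u) = μ' (z ^ u) := by
        have g1 := hf ⟨μ, h1, h2, h3⟩ ⟨_, hmem z⟩
        have g2 := hf ⟨μ', h1', h2', h3'⟩ ⟨_, hmem z⟩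
        rw [e] at g1
        exact g1.symm.trans g2
      change μ z = μ' z
      rw [e1, bm, cm, e2, e3]
    · intro ν
      let μ : Z → ℂ := fun z => μ₀ (z ^ v) * ((ν (QuotientGroup.mk ⟨_, hmem z⟩) : ℂˣ) : ℂ)
      have g1 : μ 1 = 1 := by
        change μ₀ (1 ^ v) * ((ν (QuotientGroup.mk ⟨_, hmem 1⟩) : ℂˣ) : ℂ) = 1
        have : (⟨_, hmem 1⟩ : O) = 1 := Subtype.ext (by simp)
        rw [this, one_pow, a1, QuotientGroup.mk_one, map_one, Units.val_one, one_mul]
      have gm : ∀ a b, μ (a * b) = μ a * μ b := by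
        intro a b
        change μ₀ ((a * b) ^ v) * ((ν (QuotientGroup.mk ⟨_, hmem (a * b)⟩) : ℂˣ) : ℂ) = _
        have h1 : (⟨_, hmem (a * b)⟩ : O) = ⟨_, hmem a⟩ * ⟨_, hmem b⟩ := by
          apply Subtype.ext
          change (((a * b) ^ u : Z) : G) = ((a ^ u : Z) : G) * ((b ^ u : Z) : G)
          rw [(show Commute a b from hcomm a b).mul_pow]
          rfl
        rw [h1, (show Commute a b from hcomm a b).mul_pow, am, QuotientGroup.mk_mul, map_mul,
          Units.val_mul]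
        change _ = μ₀ (a ^ v) * _ * (μ₀ (b ^ v) * _)
        ring
      have _f : Fintype Z := Fintype.ofFinite Z
      have hirr : IsIrrChar μ := Pool.Agent.N19.RB.irr_lin g1 gm
      -- values on `O`
      have hval : ∀ x : O, μ (i x) = ((ν (QuotientGroup.mk x) : ℂˣ) : ℂ) := by
        intro x
        obtain ⟨c, hc⟩ := hO.2.1 x
        have hc' : (x : G) ^ p ^ c = 1 := congrArg Subtype.val hc
        have h1 : (x : G) ^ v = 1 := by
          have h2 : orderOf ((x : G) ^ v) ∣ p ^ c := by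
            rw [orderOf_dvd_iff_pow_eq_one, ← pow_mul, mul_comm, pow_mul, hc', one_pow]
          obtain ⟨e, -, he⟩ := (Nat.dvd_prime_pow hp.out).1 h2
          have h3 := hreg (x : G)
          rw [he] at h3
          have h4 : e = 0 := by
            by_contra h5
            exact h3 (dvd_pow_self p h5)
          rw [h4, pow_zero] at he
          exact orderOf_eq_one_iff.1 he
        have h2 : (x : G) ^ u = x := by
          have h3 := (huv (x : G) (hall _)).1
          rw [h1, mul_one] at h3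
          exact h3.symm
        change μ₀ ((i x) ^ v) * ((ν (QuotientGroup.mk ⟨_, hmem (i x)⟩) : ℂˣ) : ℂ) = _
        have h3 : (i x) ^ v = 1 := Subtype.ext h1
        have h4 : (⟨_, hmem (i x)⟩ : O) = x := Subtype.ext h2
        rw [h3, h4, a1, one_mul]
      have htr : Tr K μ := by
        intro z hz
        have h1 := hval ⟨z, hK hz⟩
        have h2 : (QuotientGroup.mk ⟨z, hK hz⟩ : O ⧸ K') = 1 := by
          rw [QuotientGroup.eq_one_iff]
          exact Subgroup.mem_subgroupOf.2 hz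
        rw [h2, map_one, Units.val_one] at h1
        exact h1
      have hrt : Rt red p χ μ := by
        intro z hz
        rw [← hR z hz]
        congr 1
        have h1 : (z : G) ^ u = 1 := by
          have h2 : orderOf ((z : G) ^ u) ∣ p ^ (Nat.card G).factorization p :=
            orderOf_dvd_of_pow_eq_one (huv z.1 (hall z.1)).2.1
          obtain ⟨e, -, he⟩ := (Nat.dvd_prime_pow hp.out).1 h2
          have h4 : e = 0 := by
            by_contra h5
            refine hz ((dvd_pow_self p h5).trans ?_)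
            rw [← he]
            exact orderOf_pow_dvd u
          rw [h4, pow_zero] at he
          exact orderOf_eq_one_iff.1 he
        have h2 : (z : G) ^ v = z := by
          have h3 := (huv (z : G) (hall _)).1
          rw [h1, one_mul] at h3
          exact h3.symm
        have h3 : z ^ v = z := Subtype.ext h2
        have h4 : (⟨_, hmem z⟩ : O) = 1 := Subtype.ext h1
        change μ₀ (z ^ v) * ((ν (QuotientGroup.mk ⟨_, hmem z⟩) : ℂˣ) : ℂ) = _
        rw [h3, h4, QuotientGroup.mk_one, map_one, Units.val_one, mul_one]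
      refine ⟨⟨μ, hirr, htr, hrt⟩, ?_⟩
      apply MonoidHom.ext
      intro y
      obtain ⟨x, rfl⟩ := QuotientGroup.mk_surjective y
      apply Units.ext
      rw [hf]
      exact hval x
  rw [Nat.card_eq_of_bijective f hbij, CommGroup.card_monoidHom_of_hasEnoughRootsOfUnity]
  have h1 := Subgroup.card_eq_card_quotient_mul_card_subgroup K'
  have h2 : Nat.card K' = Nat.card K := Nat.card_congr (Subgroup.subgroupOfEquivOfLe hK).toEquiv
  rw [h2] at h1
  exact h1.symm

/-- a character whose kernel on `O` is larger contains `K₁` in the kernel -/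
theorem ker_eq {μ μ' : Z → ℂ} (hμ : IsIrrChar μ) (hμ' : IsIrrChar μ') {K K₁ : Subgroup G}
    (hK : ∀ z : Z, (z : G) ∈ K ↔ (z : G) ∈ O ∧ μ z = 1)
    (hK₁ : ∀ z : Z, (z : G) ∈ K₁ ↔ (z : G) ∈ O ∧ μ z ^ p = 1) (ht : Tr K μ')
    (ht' : ¬ Tr K₁ μ') (z : Z) (hz : (z : G) ∈ O) : μ z = 1 ↔ μ' z = 1 := by
  obtain ⟨a1, am⟩ := lin_of hZ hμ
  obtain ⟨b1, bm⟩ := lin_of hZ hμ'
  constructor
  · intro h
    exact ht z ((hK z).2 ⟨hz, h⟩)
  · intro h
    by_contra hne
    apply ht'
    intro w hw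
    obtain ⟨hwO, hw1⟩ := (hK₁ w).1 hw
    -- a power of `z` with a value of order `p`
    obtain ⟨c, hc⟩ := hO.2.1 ⟨z, hz⟩
    have hc' : z ^ p ^ c = 1 := Subtype.ext (congrArg Subtype.val hc : (z : G) ^ p ^ c = 1)
    have hex : ∃ c : ℕ, μ z ^ p ^ c = 1 := ⟨c, by rw [← lin_pow a1 am, hc', a1]⟩
    have hs := Nat.find_spec hex
    have hpos : Nat.find hex ≠ 0 := by
      intro h0
      rw [h0, pow_zero, pow_one] at hs
      exact hne hs
    obtain ⟨e, he⟩ := Nat.exists_eq_succ_of_ne_zero hpos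
    have h1 : μ z ^ p ^ e ≠ 1 := Nat.find_min hex (by omega)
    have h2 : (μ z ^ p ^ e) ^ p = 1 := by
      rw [← pow_mul, ← pow_succ, ← Nat.succ_eq_add_one, ← he]
      exact hs
    have hprim : IsPrimitiveRoot (μ z ^ p ^ e) p := by
      have h3 : orderOf (μ z ^ p ^ e) = p := orderOf_eq_prime h2 h1
      have h7 := IsPrimitiveRoot.orderOf (μ z ^ p ^ e)
      rw [h3] at h7
      exact h7
    have _n : NeZero p := ⟨hp.out.ne_zero⟩
    obtain ⟨j, -, hj⟩ := hprim.eq_pow_of_pow_eq_one hw1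
    have h4 : μ (w * ((z ^ p ^ e) ^ j)⁻¹) = 1 := by
      have h5 : μ (w * ((z ^ p ^ e) ^ j)⁻¹) * μ ((z ^ p ^ e) ^ j) = μ w := by
        rw [← am, inv_mul_cancel_right]
      rw [lin_pow a1 am, lin_pow a1 am, hj] at h5
      have h6 : μ w ≠ 0 := by
        intro h7
        rw [h7, zero_pow hp.out.ne_zero] at hw1
        exact zero_ne_one hw1
      exact mul_right_cancel₀ h6 (h5.trans (one_mul _).symm)
    have h5 : μ' (w * ((z ^ p ^ e) ^ j)⁻¹) = 1 := by
      refine ht _ ((hK _).2 ⟨?_, h4⟩)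
      exact O.mul_mem hwO (O.inv_mem (O.pow_mem (O.pow_mem hz _) _))
    have h6 : μ' (w * ((z ^ p ^ e) ^ j)⁻¹) * μ' ((z ^ p ^ e) ^ j) = μ' w := by
      rw [← bm, inv_mul_cancel_right]
    rw [← h6, h5, lin_pow b1 bm, lin_pow b1 bm, h, one_pow, one_pow, one_mul]

/-- the sum with `K` in the kernel, without the characters which are not under the block -/
theorem asum_ker' [Fintype Z] {K : Subgroup G} (hK : K ≤ O) (O' : Subgroup G) (χ : G → ℂ) (d : ℕ) :
    asum p red O' χ d (fun _ ϑ => InKer K ϑ) =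
      ∑ μ ∈ (Irr Z).filter (fun μ => Tr K μ ∧ Rt red p χ μ),
        asum p red O' χ d (fun _ ϑ => Over μ ϑ) := by
  rw [asum_ker red (p := p) hZ (hK.trans hO.1) O' χ d]
  symm
  refine Finset.sum_subset ?_ ?_
  · intro μ hμ
    rw [Finset.mem_filter] at hμ ⊢
    exact ⟨hμ.1, hμ.2.1⟩
  · intro μ hμ hμ'
    rw [Finset.mem_filter] at hμ hμ'
    refine asum_zero red hZ fun h => hμ' ⟨hμ.1, hμ.2, h⟩

/-- **The formula** -/
theorem formula {χ : G → ℂ} {μ : Z → ℂ} (hμ : IsIrrChar μ) (hR : Rt red p χ μ)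
    {K K₁ : Subgroup G} (hK : ∀ z : G, z ∈ K ↔ ∃ h : z ∈ O, μ ⟨z, hO.1 h⟩ = 1)
    (hK₁ : ∀ z : G, z ∈ K₁ ↔ ∃ h : z ∈ O, μ ⟨z, hO.1 h⟩ ^ p = 1) (O' : Subgroup G) (d : ℕ) :
    ((Nat.card O / Nat.card K : ℕ) - (Nat.card O / Nat.card K₁ : ℕ) : ℤ) *
      asum p red O' χ d (fun _ ϑ => Over μ ϑ) =
    asum p red O' χ d (fun _ ϑ => InKer K ϑ) - asum p red O' χ d (fun _ ϑ => InKer K₁ ϑ) := by
  have _f : Fintype Z := Fintype.ofFinite Z
  have k1 : K ≤ O := fun z hz => ((hK z).1 hz).1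
  have k2 : K₁ ≤ O := fun z hz => ((hK₁ z).1 hz).1
  have k3 : K ≤ K₁ := by
    intro z hz
    obtain ⟨h1, h2⟩ := (hK z).1 hz
    exact (hK₁ z).2 ⟨h1, by rw [h2, one_pow]⟩
  have hcard : ∀ K ≤ O, ((Irr Z).filter fun μ => Tr K μ ∧ Rt red p χ μ).card =
      Nat.card O / Nat.card K := by
    intro K hK
    have h1 := card_tr red hZ hO hμ hR hK
    have h2 : ((Irr Z).filter fun μ => Tr K μ ∧ Rt red p χ μ).card =
        Nat.card {μ : Z → ℂ // IsIrrChar μ ∧ Tr K μ ∧ Rt red p χ μ} := by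
      rw [Pool.Agent.Q90.WR.card_filter_eq]
    rw [h2, ← h1, Nat.mul_div_cancel _ Nat.card_pos]
  rw [asum_ker' red hZ hO k1, asum_ker' red hZ hO k2, ← hcard K k1, ← hcard K₁ k2]
  have hsub : ((Irr Z).filter fun μ => Tr K₁ μ ∧ Rt red p χ μ) ⊆
      (Irr Z).filter fun μ => Tr K μ ∧ Rt red p χ μ := by
    intro ν hν
    rw [Finset.mem_filter] at hν ⊢
    exact ⟨hν.1, fun z hz => hν.2.1 z (k3 hz), hν.2.2⟩
  rw [← Finset.sum_sdiff hsub, add_sub_cancel_right]
  have h1 : ∀ ν ∈ ((Irr Z).filter fun μ => Tr K μ ∧ Rt red p χ μ) \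
      ((Irr Z).filter fun μ => Tr K₁ μ ∧ Rt red p χ μ),
      asum p red O' χ d (fun _ ϑ => Over ν ϑ) = asum p red O' χ d (fun _ ϑ => Over μ ϑ) := by
    intro ν hν
    rw [Finset.mem_sdiff, Finset.mem_filter, Finset.mem_filter, mem_Irr] at hν
    obtain ⟨⟨h1, h2, h3⟩, h4⟩ := hν
    have h5 : ¬ Tr K₁ ν := fun h5 => h4 ⟨h1, h5, h3⟩
    refine (asum_eq red hZ hO hμ h1 (rt_eq red hZ hO hμ h1 hR h3) (fun z hz => ?_) O' χ d).symm
    refine ker_eq hZ hO hμ h1 (K := K) (K₁ := K₁) (fun z => ?_) (fun z => ?_) h2 h5 z hz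
    · rw [hK]
      constructor
      · rintro ⟨a, b⟩
        exact ⟨a, b⟩
      · rintro ⟨a, b⟩
        exact ⟨a, b⟩
    · rw [hK₁]
      constructor
      · rintro ⟨a, b⟩
        exact ⟨a, b⟩
      · rintro ⟨a, b⟩
        exact ⟨a, b⟩
  rw [Finset.sum_congr rfl h1, Finset.sum_const, nsmul_eq_mul, Finset.card_sdiff_of_subset hsub,
    Nat.cast_sub (Finset.card_le_card hsub)]

/-- characters which are trivial on `O` -/
theorem triv {χ : G → ℂ} {μ : Z → ℂ} (hμ : IsIrrChar μ) (hR : Rt red p χ μ)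
    (ht : ∀ z : Z, (z : G) ∈ O → μ z = 1) (O' : Subgroup G) (d : ℕ) :
    asum p red O' χ d (fun _ ϑ => Over μ ϑ) = asum p red O' χ d (fun _ ϑ => InKer O ϑ) := by
  have _f : Fintype Z := Fintype.ofFinite Z
  have h0 := card_tr red hZ hO hμ hR (le_refl O)
  have h1 : ((Irr Z).filter fun μ => Tr O μ ∧ Rt red p χ μ).card = 1 := by
    have h2 : ((Irr Z).filter fun μ => Tr O μ ∧ Rt red p χ μ).card =
        Nat.card {μ : Z → ℂ // IsIrrChar μ ∧ Tr O μ ∧ Rt red p χ μ} := by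
      rw [Pool.Agent.Q90.WR.card_filter_eq]
    rw [h2]
    have h3 : 0 < Nat.card O := Nat.card_pos
    exact Nat.eq_of_mul_eq_mul_right h3 (by rw [h0, one_mul])
  rw [asum_ker' red hZ hO (le_refl O)]
  obtain ⟨ν, hν⟩ := Finset.card_eq_one.1 h1
  have h2 : μ ∈ (Irr Z).filter fun μ => Tr O μ ∧ Rt red p χ μ := by
    rw [Finset.mem_filter, mem_Irr]
    exact ⟨hμ, ht, hR⟩
  rw [hν, Finset.mem_singleton] at h2
  rw [hν, Finset.sum_singleton, h2]

end Pool.Agent.U259.DP
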