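import Pool.Agent.U259.DP.Lam

/-!
# The alternating sums over a central character only depend on its kernel
-/

set_option autoImplicit false
set_option linter.unusedSectionVars false

open scoped Classical BigOperators

noncomputable section

namespace Pool.Agent.U259.DP

open Pool.Agent.Y63.NV (redC)
open Pool.Agent.Y930.NV (om redC_one redC_mul redC_sum redC_zero redC_intCast)
open Pool.Agent.Helper884.IC
open Pool.Agent.Q99.AS
open Pool.Agent.Y63.KR (conjSub chainStabilizer)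

variable {G : Type} [Group G] {F : Type} [Field F] (red : integralClosure ℤ ℂ →+* F)

/-- `μ` is trivial on `K` -/
def Tr {Z : Subgroup G} (K : Subgroup G) (μ : Z → ℂ) : Prop := ∀ z : Z, (z : G) ∈ K → μ z = 1

section sum

variable [Finite G] {p : ℕ} {Z K : Subgroup G} (hZ : Z ≤ Subgroup.center G) (hK : K ≤ Z)
include hZ hK

theorem nm_ker (χ : G → ℂ) (d : ℕ) {H : Subgroup G} (hZH : Z ≤ H) [Fintype Z] :
    nm p red χ d (fun _ ϑ => InKer K ϑ) H =
      ∑ μ ∈ (Irr Z).filter (Tr K), nm p red χ d (fun _ ϑ => Over μ ϑ) H := by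
  have _f : Fintype H := Fintype.ofFinite H
  simp_rw [nm_eq]
  rw [Finset.card_eq_sum_card_fiberwise (f := mu Z hZH) (t := (Irr Z).filter (Tr K))]
  · push_cast
    refine Finset.sum_congr rfl fun μ hμ => ?_
    rw [Finset.mem_filter] at hμ
    congr 2
    ext ϑ
    simp only [Finset.mem_filter, mem_Irr]
    constructor
    · rintro ⟨⟨h1, h2, h3, -⟩, h5⟩
      exact ⟨h1, h2, h3, (over_iff hZH h1).2 h5⟩
    · rintro ⟨h1, h2, h3, h4⟩
      refine ⟨⟨h1, h2, h3, fun z hz hH => ?_⟩, (over_iff hZH h1).1 h4⟩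
      rw [h4 z (hK hz) hH, hμ.2 ⟨z, hK hz⟩ hz, mul_one]
  · intro ϑ hϑ
    rw [Finset.mem_coe, Finset.mem_filter, mem_Irr] at hϑ
    rw [Finset.mem_coe, Finset.mem_filter, mem_Irr]
    refine ⟨mu_irr hZ hZH hϑ.1, fun z hz => ?_⟩
    unfold mu
    rw [hϑ.2.2.2 z.1 hz, div_self (irr_one_ne' hϑ.1)]

theorem asum_ker (O : Subgroup G) (χ : G → ℂ) (d : ℕ) [Fintype Z] :
    asum p red O χ d (fun _ ϑ => InKer K ϑ) =
      ∑ μ ∈ (Irr Z).filter (Tr K), asum p red O χ d (fun _ ϑ => Over μ ϑ) := by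
  unfold asum
  rw [← altSum_sum]
  exact altSum_congr fun σ _ => nm_ker red hZ hK χ d (hZ.trans center_le_stab)

end sum

section right

/-- the value of the central character at a central element -/
theorem lam_central {H : Subgroup G} {z : G} (hz : z ∈ Subgroup.center G) (hH : z ∈ H)
    (ϑ : H → ℂ) : lam red H.subtype ϑ z = redC red (ϑ ⟨z, hH⟩ / ϑ 1) := by
  unfold lam
  congr 2
  have h2 : ∀ x : {x : H // IsConj z (H.subtype x)}, x.1 = ⟨z, hH⟩ := by
    rintro ⟨x, hx⟩
    obtain ⟨c, hc⟩ := isConj_iff.1 hx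
    apply Subtype.ext
    change (x : G) = z
    rw [Subgroup.mem_center_iff.1 hz c, mul_inv_cancel_right] at hc
    exact hc.symm
  let _u : Unique {x : H // IsConj z (H.subtype x)} :=
    { default := ⟨⟨z, hH⟩, IsConj.refl z⟩
      uniq := fun x => Subtype.ext (h2 x) }
  rw [finsum_unique]
  rfl

/-- `μ` has the values of the block on the elements of order prime to `p` -/
def Rt (p : ℕ) {Z : Subgroup G} (χ : G → ℂ) (μ : Z → ℂ) : Prop :=
  ∀ z : Z, ¬ p ∣ orderOf (z : G) → redC red (μ z) = lam red (MonoidHom.id G) χ z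

variable [Finite G] {p : ℕ} {Z : Subgroup G} (hZ : Z ≤ Subgroup.center G)
include hZ

theorem nm_zero {χ : G → ℂ} {d : ℕ} {H : Subgroup G} (hZH : Z ≤ H) {μ : Z → ℂ}
    (h : ¬ Rt red p χ μ) : nm p red χ d (fun _ ϑ => Over μ ϑ) H = 0 := by
  unfold nm
  rw [Nat.cast_eq_zero, Nat.card_eq_zero]
  left
  constructor
  rintro ⟨ϑ, h1, h2, -, h4⟩
  apply h
  intro z hz
  rw [← h2 z.1 hz, lam_central red (hZ z.2) (hZH z.2), h4 z.1 z.2 (hZH z.2),
    mul_div_cancel_left₀ _ (irr_one_ne' h1)]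

theorem asum_zero {χ : G → ℂ} {d : ℕ} {O : Subgroup G} {μ : Z → ℂ} (h : ¬ Rt red p χ μ) :
    asum p red O χ d (fun _ ϑ => Over μ ϑ) = 0 := by
  unfold asum
  have h1 : altSum p O (nm p red χ d fun _ ϑ => Over μ ϑ) = altSum p O fun _ => 0 :=
    altSum_congr fun σ _ => nm_zero red hZ (hZ.trans center_le_stab) h
  rw [h1]
  exact altSum_zero fun _ => rfl

end right

/-- roots of unity of order prime to `p` are determined by their residues -/
theorem root_inj {p : ℕ} [CharP F p] {ξ : ℂ} {m : ℕ} (hm : ¬ p ∣ m) (h : ξ ^ m = 1)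
    (hr : redC red ξ = 1) : ξ = 1 := by
  by_contra hne
  have hm0 : m ≠ 0 := by
    rintro rfl
    exact hm (dvd_zero p)
  have hi := int_root hm0 h
  have h1 : ∑ i ∈ Finset.range m, ξ ^ i = 0 := by
    have h2 := mul_geom_sum ξ m
    rw [h, sub_self] at h2
    exact (mul_eq_zero.1 h2).resolve_left (sub_ne_zero.2 hne)
  have h2 : redC red (∑ i ∈ Finset.range m, ξ ^ i) = (m : F) := by
    rw [redC_sum red _ _ fun i _ => hi.pow i]
    simp only [redC_pow red hi, hr, one_pow, Finset.sum_const, Finset.card_range, nsmul_eq_mul,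
      mul_one]
  rw [h1, redC_zero] at h2
  exact hm ((CharP.cast_eq_zero_iff F p m).1 h2.symm)

theorem root_eq {p : ℕ} [CharP F p] {a b : ℂ} {m : ℕ} (hm : ¬ p ∣ m) (ha : a ^ m = 1)
    (hb : b ^ m = 1) (hr : redC red a = redC red b) : a = b := by
  have hm0 : m ≠ 0 := by
    rintro rfl
    exact hm (dvd_zero p)
  have hb0 : b ≠ 0 := by
    rintro rfl
    rw [zero_pow hm0] at hb
    exact zero_ne_one hb
  have i1 := int_root hm0 ha
  have i2 := int_root hm0 hb
  have hb' : (b⁻¹) ^ m = 1 := by rw [inv_pow, hb, inv_one]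
  have i3 := int_root hm0 hb'
  have h1 : a * b⁻¹ = 1 := by
    refine root_inj red hm (by rw [mul_pow, ha, hb', one_mul]) ?_
    rw [redC_mul red i1 i3, hr, ← redC_mul red i2 i3, mul_inv_cancel₀ hb0, redC_one]
  exact (mul_inv_eq_one₀ hb0).1 h1

end Pool.Agent.U259.DP
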