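import Pool.Agent.U259.DP.QuoC
import Pool.Agent.N85.TG.Exc0

/-!
# Blocks of quotients by central `p`-subgroups
-/

set_option autoImplicit false
set_option linter.unusedSectionVars false

open scoped Classical BigOperators

noncomputable section

namespace Pool.Agent.U259.DP

open Pool.Agent.Y63.NV (redC centralValue IsBlock)
open Pool.Agent.Y930.NV (om R ind Cf mk_out mk_conj om_int Cf_ind ind_cast redC_mul centralValue_eq
  irr_Cf Cf_out redC_of irr_one_ne)
open Pool.Agent.Helper884.IC
open Pool.Agent.Q99.AS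
open Pool.Agent.N85.TG.Exc
open Pool.Agent.N19.RB (irr_surj)

attribute [-instance] Pool.Agent.H254R3.IN.fintypeCC Pool.Agent.H254R3.IN.decConj

variable {G Q : Type} [Group G] [Group Q] [Fintype G] [Fintype Q] {π : G →* Q}
  (hπ : Function.Surjective π) {p : ℕ} [hp : Fact p.Prime] (hker : IsPGroup p π.ker)
  (hc : π.ker ≤ Subgroup.center G)

variable {F : Type} [Field F] [CharP F p] (red : integralClosure ℤ ℂ →+* F)

omit [Fintype Q] hp [CharP F p] in
/-- conjugacy and central elements -/
theorem mk_mul {k x y : G} (hk : k ∈ Subgroup.center G) :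
    ConjClasses.mk (k * x) = ConjClasses.mk (k * y) ↔ ConjClasses.mk x = ConjClasses.mk y := by
  rw [ConjClasses.mk_eq_mk_iff_isConj, ConjClasses.mk_eq_mk_iff_isConj, isConj_iff, isConj_iff]
  refine exists_congr fun c => ?_
  have h1 : c * (k * x) * c⁻¹ = k * (c * x * c⁻¹) := by
    rw [← mul_assoc c k x, Subgroup.mem_center_iff.1 hk c]
    group
  rw [h1, mul_right_inj]

omit [Fintype Q] in
/-- the values of the central character at translates by central `p`-elements -/
theorem R_mul {χ : G → ℂ} (hχ : IsIrrChar χ) {k : G} (hk : k ∈ Subgroup.center G) {a : ℕ}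
    (hka : k ^ p ^ a = 1) (x : G) :
    R red χ (ind ℤ (ConjClasses.mk (k * x))) = R red χ (ind ℤ (ConjClasses.mk x)) := by
  have h0 := irr_one_ne' hχ
  have hcen : ∀ z ∈ Subgroup.center G, ∀ w, χ (z * w) = χ z / χ 1 * χ w := by
    intro z hz w
    have h1 := central hχ (fun y => Subgroup.mem_center_iff.1 hz y) w
    field_simp
    exact h1
  have hpow : ∀ n : ℕ, χ (k ^ n) / χ 1 = (χ k / χ 1) ^ n := by
    intro n
    induction n with
    | zero => rw [pow_zero, pow_zero, div_self h0]
    | succ n ih =>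
      rw [pow_succ' k, hcen k hk, mul_div_assoc, ih, pow_succ']
  have hroot : (χ k / χ 1) ^ p ^ a = 1 := by rw [← hpow, hka, div_self h0]
  have hi := int_root (pow_ne_zero a hp.out.ne_zero) hroot
  unfold Pool.Agent.Y930.NV.R
  rw [ind_cast, ind_cast]
  have h1 : om χ (ind ℂ (ConjClasses.mk (k * x))) =
      χ k / χ 1 * om χ (ind ℂ (ConjClasses.mk x)) := by
    unfold Pool.Agent.Y930.NV.om
    rw [div_eq_iff h0, mul_assoc, div_mul_cancel₀ _ h0, Finset.mul_sum]
    have e1 := Equiv.sum_comp (Equiv.mulLeft k)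
      (fun g : G => ind ℂ (ConjClasses.mk (k * x)) g * χ g)
    refine e1.symm.trans (Finset.sum_congr rfl fun g _ => ?_)
    have e2 : ind ℂ (ConjClasses.mk (k * x)) (k * g) = ind ℂ (ConjClasses.mk x) g := by
      unfold Pool.Agent.Y930.NV.ind
      exact if_congr (mk_mul hk) rfl rfl
    change ind ℂ (ConjClasses.mk (k * x)) (k * g) * χ (k * g) = _
    rw [e2, hcen k hk]
    ring
  have h2 := om_int hχ (Cf_ind ℤ (ConjClasses.mk x))
  rw [ind_cast] at h2
  rw [h1, redC_mul red hi h2, redC_proot red hroot, one_mul]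

include hπ hker hc

theorem van {χ : G → ℂ} (hχ : IsIrrChar χ) {a : G → Oc} (ha : Cf a)
    (h : ∀ y : Q, ∑ g, (if π g = y then a g else 0) = 0) :
    centralValue red χ (toF red a) = 0 := by
  rw [centralValue_eq red hχ]
  have efib := Finset.sum_fiberwise (s := (Finset.univ : Finset (ConjClasses G)))
    (g := fun C : ConjClasses G => ConjClasses.map π C)
    (f := fun C : ConjClasses G => toF red a C.out * R red χ (ind ℤ C))
  have eU : ∀ (i : Fintype (ConjClasses G)) (f : ConjClasses G → F),
      @Finset.sum (ConjClasses G) F _ (@Finset.univ (ConjClasses G) i) f = ∑ C, f C := by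
    intro i f
    have hi : i = _ := Subsingleton.elim i inferInstance
    rw [hi]
  refine (eU _ _).trans (efib.symm.trans ?_)
  refine Finset.sum_eq_zero fun D _ => ?_
  rcases (Finset.univ.filter fun C : ConjClasses G => ConjClasses.map π C = D).eq_empty_or_nonempty
    with he | ⟨C₀, hC₀⟩
  · rw [he, Finset.sum_empty]
  rw [Finset.mem_filter] at hC₀
  set x₀ : G := C₀.out with hx₀
  -- the members of the fibre
  have hfib : ∀ C : ConjClasses G, ConjClasses.map π C = D → ∃ k : π.ker,
      C = ConjClasses.mk (k * x₀) := by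
    intro C hC
    have h1 : ConjClasses.mk (π C.out) = ConjClasses.mk (π x₀) := by
      have e1 : ConjClasses.map π C = ConjClasses.mk (π C.out) := by
        conv_lhs => rw [← mk_out C]
        rfl
      have e2 : ConjClasses.map π C₀ = ConjClasses.mk (π x₀) := by
        conv_lhs => rw [← mk_out C₀]
        rfl
      rw [← e1, ← e2, hC, hC₀.2]
    rw [ConjClasses.mk_eq_mk_iff_isConj, isConj_comm, isConj_iff] at h1
    obtain ⟨c, hc'⟩ := h1
    obtain ⟨c, rfl⟩ := hπ c
    have h2 : C.out * (c * x₀ * c⁻¹)⁻¹ ∈ π.ker := by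
      rw [MonoidHom.mem_ker, map_mul, map_inv, map_mul, map_mul, map_inv, hc', mul_inv_cancel]
    refine ⟨⟨_, h2⟩, ?_⟩
    have h3 : C.out = C.out * (c * x₀ * c⁻¹)⁻¹ * (c * x₀ * c⁻¹) := by group
    conv_lhs => rw [← mk_out C, h3]
    rw [mk_mul (hc h2), mk_conj]
  have hb : ∀ C : ConjClasses G, ConjClasses.map π C = D →
      R red χ (ind ℤ C) = R red χ (ind ℤ C₀) := by
    intro C hC
    obtain ⟨k, rfl⟩ := hfib C hC
    obtain ⟨n, hn⟩ := hker k
    have hn' : (k : G) ^ p ^ n = 1 := congrArg Subtype.val hn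
    rw [R_mul red hχ (hc k.2) hn' x₀, hx₀, mk_out]
  -- the sum of the values
  have hsum : ∑ C ∈ Finset.univ.filter (fun C : ConjClasses G => ConjClasses.map π C = D),
      a C.out = 0 := by
    have h1 := h (π x₀)
    have h2 : ∑ g, (if π g = π x₀ then a g else 0) = ∑ k : π.ker, a (k * x₀) := by
      rw [← Finset.sum_filter]
      symm
      refine Finset.sum_bij (fun k _ => (k : G) * x₀) ?_ ?_ ?_ ?_
      · intro k _
        rw [Finset.mem_filter, map_mul, MonoidHom.mem_ker.1 k.2, one_mul]
        exact ⟨Finset.mem_univ _, rfl⟩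
      · intro k _ k' _ e
        exact Subtype.ext (mul_right_cancel e)
      · intro g hg
        rw [Finset.mem_filter] at hg
        have h3 : g * x₀⁻¹ ∈ π.ker := by
          rw [MonoidHom.mem_ker, map_mul, map_inv, hg.2, mul_inv_cancel]
        exact ⟨⟨_, h3⟩, Finset.mem_univ _, by rw [inv_mul_cancel_right]⟩
      · intro k _
        rfl
    rw [h2] at h1
    have h3 : ∑ k : π.ker, a (k * x₀) =
        ∑ C ∈ Finset.univ.filter (fun C : ConjClasses G => ConjClasses.map π C = D),
          ((Finset.univ.filter fun k : π.ker => ConjClasses.mk ((k : G) * x₀) = C).card : Oc) *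
            a C.out := by
      rw [← Finset.sum_fiberwise_of_maps_to
        (t := Finset.univ.filter (fun C : ConjClasses G => ConjClasses.map π C = D))
        (g := fun k : π.ker => ConjClasses.mk ((k : G) * x₀))]
      · refine Finset.sum_congr rfl fun C _ => ?_
        rw [← nsmul_eq_mul, ← Finset.sum_const]
        refine Finset.sum_congr rfl fun k hk => ?_
        rw [Finset.mem_filter] at hk
        exact (Cf_out ha hk.2).symm
      · intro k _
        rw [Finset.mem_filter]
        refine ⟨Finset.mem_univ _, ?_⟩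
        have e2 : ConjClasses.map π C₀ = ConjClasses.mk (π x₀) := by
          conv_lhs => rw [← mk_out C₀]
          rfl
        change ConjClasses.mk (π ((k : G) * x₀)) = D
        rw [map_mul, MonoidHom.mem_ker.1 k.2, one_mul, ← e2, hC₀.2]
    have h4 : ∀ C ∈ Finset.univ.filter (fun C : ConjClasses G => ConjClasses.map π C = D),
        (Finset.univ.filter fun k : π.ker => ConjClasses.mk ((k : G) * x₀) = C).card =
          (Finset.univ.filter fun k : π.ker =>
            ConjClasses.mk ((k : G) * x₀) = ConjClasses.mk x₀).card := by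
      intro C hC
      rw [Finset.mem_filter] at hC
      obtain ⟨k₁, rfl⟩ := hfib C hC.2
      refine Finset.card_bij (fun k _ => k₁⁻¹ * k) ?_ ?_ ?_
      · intro k hk
        rw [Finset.mem_filter] at hk ⊢
        refine ⟨Finset.mem_univ _, ?_⟩
        have h5 := (mk_mul (hc (k₁⁻¹).2)).2 hk.2
        have e3 : ((k₁⁻¹ : π.ker) : G) * ((k₁ : G) * x₀) = x₀ := by
          rw [← mul_assoc, ← Subgroup.coe_mul, inv_mul_cancel, Subgroup.coe_one, one_mul]
        rw [e3, ← mul_assoc] at h5
        exact h5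
      · intro k _ k' _ e
        exact mul_left_cancel e
      · intro k hk
        rw [Finset.mem_filter] at hk
        refine ⟨k₁ * k, ?_, by group⟩
        rw [Finset.mem_filter]
        refine ⟨Finset.mem_univ _, ?_⟩
        have h5 := (mk_mul (hc k₁.2)).2 hk.2
        rw [← mul_assoc] at h5
        exact h5
    have h6 : (((Finset.univ.filter fun k : π.ker =>
        ConjClasses.mk ((k : G) * x₀) = ConjClasses.mk x₀).card : ℕ) : Oc) ≠ 0 := by
      have h7 : 0 < (Finset.univ.filter fun k : π.ker =>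
          ConjClasses.mk ((k : G) * x₀) = ConjClasses.mk x₀).card := by
        refine Finset.card_pos.2 ⟨1, ?_⟩
        rw [Finset.mem_filter, Subgroup.coe_one, one_mul]
        exact ⟨Finset.mem_univ _, rfl⟩
      exact_mod_cast h7.ne'
    rw [h3, Finset.sum_congr rfl fun C hC => by rw [h4 C hC], ← Finset.mul_sum] at h1
    exact (mul_eq_zero.1 h1).resolve_left h6
  have h8 : ∑ C ∈ Finset.univ.filter (fun C : ConjClasses G => ConjClasses.map π C = D),
      toF red a C.out * R red χ (ind ℤ C) =
      red (∑ C ∈ Finset.univ.filter (fun C : ConjClasses G => ConjClasses.map π C = D),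
        a C.out) * R red χ (ind ℤ C₀) := by
    rw [map_sum, Finset.sum_mul]
    refine Finset.sum_congr rfl fun C hC => ?_
    rw [Finset.mem_filter] at hC
    rw [hb C hC.2]
    rfl
  rw [h8, hsum, map_zero, zero_mul]

/-- the central characters of inflated characters of `G` at `p`-regular classes -/
theorem lam_inf_id (ψ : Q → ℂ) {g : G} (hg : ¬ p ∣ orderOf g) :
    lam red (MonoidHom.id G) (fun x => ψ (π x)) g = lam red (MonoidHom.id Q) ψ (π g) := by
  unfold lam
  have h1 : (fun x => ψ (π x)) 1 = ψ 1 := by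
    simp only [map_one]
  rw [h1]
  congr 2
  refine finsum_eq_of_bijective (fun x => ⟨π x.1, ?_⟩) ?_ (fun x => rfl)
  · obtain ⟨c, hc'⟩ := isConj_iff.1 x.2
    refine isConj_iff.2 ⟨π c, ?_⟩
    change _ = π x.1
    have hx : (x.1 : G) = c * g * c⁻¹ := hc'.symm
    rw [hx, map_mul, map_mul, map_inv]
  · constructor
    · rintro ⟨x, hx⟩ ⟨y, hy⟩ hxy
      have h2 : π x = π y := congrArg Subtype.val hxy
      have hx' : IsConj g x := hx
      have hy' : IsConj g y := hy
      have h3 : x = y := by
        refine reg_inj hker hc (p := p) ?_ ?_ h2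
        · rw [← orderOf_conj hx']
          exact hg
        · rw [← orderOf_conj hy']
          exact hg
      exact Subtype.ext h3
    · rintro ⟨y, hy⟩
      obtain ⟨c, hc'⟩ := isConj_iff.1 hy
      obtain ⟨c, rfl⟩ := hπ c
      refine ⟨⟨c * g * c⁻¹, isConj_iff.2 ⟨c, rfl⟩⟩, Subtype.ext ?_⟩
      change π (c * g * c⁻¹) = y
      rw [map_mul, map_mul, map_inv]
      exact hc'

omit hπ hker hc [Fintype Q] hp [CharP F p] in
theorem lam_R {χ : G → ℂ} (g : G) :
    lam red (MonoidHom.id G) χ g = R red χ (ind ℤ (ConjClasses.mk g)) := by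
  rw [lam_eq]
  unfold Pool.Agent.Y930.NV.R
  congr 2
  funext x
  unfold indi Pool.Agent.Y930.NV.ind
  have h1 : IsConj g (MonoidHom.id G x) ↔ ConjClasses.mk x = ConjClasses.mk g := by
    rw [ConjClasses.mk_eq_mk_iff_isConj, isConj_comm]
    rfl
  by_cases h2 : ConjClasses.mk x = ConjClasses.mk g
  · rw [if_pos h2, if_pos (h1.2 h2)]
  · rw [if_neg h2, if_neg fun h => h2 (h1.1 h)]

/-- **Every block of `G` contains a character with a given central `p`-subgroup in its kernel** -/
theorem dom {χ : G → ℂ} (hχ : IsIrrChar χ) :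
    ∃ χ' : Q → ℂ, IsIrrChar χ' ∧ ∀ g : G, ¬ p ∣ orderOf g →
      lam red (MonoidHom.id Q) χ' (π g) = lam red (MonoidHom.id G) χ g := by
  by_contra hcon
  push Not at hcon
  have hB : IsBlock (centralValue red χ) := Pool.Agent.Y930.NV.cvh F red G χ hχ
  have hBi : ∀ C : ConjClasses G, centralValue red χ (ind F C) = R red χ (ind ℤ C) := by
    intro C
    rw [centralValue_eq red hχ]
    refine (Finset.sum_eq_single C ?_ ?_).trans ?_
    · intro D _ hD
      rw [Pool.Agent.Y930.NV.ind_out, if_neg, zero_mul]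
      exact hD
    · intro h
      exact absurd (Finset.mem_univ _) h
    · rw [Pool.Agent.Y930.NV.ind_out, if_pos rfl, one_mul]
  have h2 : ∀ ψ : Q → ℂ, ∃ (C : ConjClasses G) (w : Oc), IsIrrChar ψ →
      (w : ℂ) = om (fun x => ψ (π x)) (ind ℂ C) ∧
        centralValue red χ (ind F C) ≠ red w := by
    intro ψ
    by_cases hψ : IsIrrChar ψ
    · obtain ⟨g, hg, hne⟩ := hcon ψ hψ
      have hψ' : IsIrrChar fun x => ψ (π x) := irr_surj π hπ hψ
      have hi := om_int hψ' (Cf_ind ℤ (ConjClasses.mk g))
      rw [ind_cast] at hi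
      refine ⟨ConjClasses.mk g, ⟨_, hi⟩, fun _ => ⟨rfl, fun h => hne ?_⟩⟩
      rw [← lam_inf_id hπ hker hc red ψ hg, lam_R, lam_R, ← hBi, h]
      unfold Pool.Agent.Y930.NV.R
      rw [ind_cast, redC_of red hi]
    · exact ⟨ConjClasses.mk 1, 0, fun h => absurd h hψ⟩
  choose Cc w hw using h2
  obtain ⟨l, hl⟩ : ∃ l : List (G → Oc), l = (Irr Q).toList.map fun ψ => ac (Cc ψ) (w ψ) :=
    ⟨_, rfl⟩
  have hlC : ∀ a ∈ l, Cf a := by
    intro a ha
    rw [hl, List.mem_map] at ha
    obtain ⟨ψ, -, rfl⟩ := ha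
    exact Cf_ac _ _
  have h3 : ∀ ψ : Q → ℂ, IsIrrChar ψ → om (fun x => ψ (π x)) (toC (P l)) = 0 := by
    intro ψ hψ
    have hψ' : IsIrrChar fun x => ψ (π x) := irr_surj π hπ hψ
    rw [om_P hψ' l hlC, List.prod_eq_zero_iff, List.mem_map]
    refine ⟨ac (Cc ψ) (w ψ), ?_, ?_⟩
    · rw [hl, List.mem_map]
      exact ⟨ψ, Finset.mem_toList.2 (mem_Irr.2 hψ), rfl⟩
    · rw [om_ac hψ', ← (hw ψ hψ).1, sub_self]
  have hPC : Cf (P l) := Cf_P l hlC
  have h4 : (fun y : Q => ∑ g, if π g = y⁻¹ then toC (P l) g else 0) = 0 := by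
    apply class_eq_zero
    · intro y z
      obtain ⟨c, rfl⟩ := hπ z
      beta_reduce
      rw [← Equiv.sum_comp (MulAut.conj c).toEquiv]
      refine Finset.sum_congr rfl fun g _ => ?_
      change (if π (c * g * c⁻¹) = _ then toC (P l) (c * g * c⁻¹) else 0) = _
      rw [Cf_toC hPC c g]
      refine if_congr ?_ rfl rfl
      rw [map_mul, map_mul, map_inv, mul_inv_rev, mul_inv_rev, inv_inv, ← mul_assoc]
      constructor
      · intro h
        exact mul_left_cancel (mul_right_cancel h)
      · intro h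
        rw [h]
    · intro ψ hψ
      have h5 := h3 ψ hψ
      unfold Pool.Agent.Y930.NV.om at h5
      rw [div_eq_zero_iff] at h5
      have h5' : ∑ g : G, toC (P l) g * ψ (π g) = 0 := by
        refine h5.resolve_right ?_
        simp only [map_one]
        exact irr_one_ne' hψ
      unfold Pool.Agent.Helper884.IC.B
      have h7 : ∑ y : Q, (∑ g, if π g = y⁻¹ then toC (P l) g else 0) * ψ y⁻¹ =
          ∑ g : G, toC (P l) g * ψ (π g) := by
        rw [← Equiv.sum_comp (Equiv.inv Q)]
        simp only [Equiv.inv_apply, inv_inv]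
        simp_rw [Finset.sum_mul]
        rw [Finset.sum_comm]
        refine Finset.sum_congr rfl fun g _ => ?_
        rw [Finset.sum_eq_single (π g)]
        · rw [if_pos rfl]
        · intro y _ hy
          rw [if_neg fun h => hy h.symm, zero_mul]
        · intro h
          exact absurd (Finset.mem_univ _) h
      rw [h7, h5', mul_zero]
  have h5 : ∀ y : Q, ∑ g, (if π g = y then P l g else 0) = 0 := by
    intro y
    have h6 := congrFun h4 y⁻¹
    simp only [inv_inv, Pi.zero_apply] at h6
    apply Subtype.ext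
    push_cast
    rw [← h6]
    refine Finset.sum_congr rfl fun g _ => ?_
    split_ifs <;> rfl
  have h6 := van hπ hker hc red hχ hPC h5
  have h7 := B_P red hB l hlC
  rw [h6] at h7
  have h8 := List.prod_eq_zero_iff.1 h7.symm
  rw [List.mem_map] at h8
  obtain ⟨a, ha, ha0⟩ := h8
  rw [hl, List.mem_map] at ha
  obtain ⟨ψ, hψ, rfl⟩ := ha
  rw [Finset.mem_toList, mem_Irr] at hψ
  rw [B_ac red hB, sub_eq_zero] at ha0
  exact (hw ψ hψ).2 ha0

end Pool.Agent.U259.DP
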