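import Pool.Agent.Q99.AS.Dade
import Pool.Agent.N19.RB.Amn

/-!
# Field automorphisms which fix the roots of unity of order prime to `p`
-/

set_option autoImplicit false
set_option linter.unusedSectionVars false

open scoped Classical BigOperators

noncomputable section

namespace Pool.Agent.U259.DP

open Pool.Agent.Y63.NV (redC)
open Pool.Agent.Y930.NV (om om_int redC_mul redC_one redC_add redC_intCast redC_of int_intCast)
open Pool.Agent.Helper884.IC

variable {F : Type} [Field F] (red : integralClosure ℤ ℂ →+* F)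

/-- integers of a cyclotomic field -/
theorem mem_adjoin {n : ℕ} [NeZero n] {ζ : ℂ} (hζ : IsPrimitiveRoot ζ n) {x : ℂ}
    (hx : x ∈ IntermediateField.adjoin ℚ {ζ}) (hi : IsIntegral ℤ x) :
    x ∈ Algebra.adjoin ℤ {ζ} := by
  have hint : IsIntegral ℤ ζ := hζ.isIntegral (NeZero.pos n)
  have halg : IsAlgebraic ℚ ζ := hint.tower_top.isAlgebraic
  have : IsCyclotomicExtension {n} ℚ (IntermediateField.adjoin ℚ {ζ}) := by
    change IsCyclotomicExtension {n} ℚ (IntermediateField.adjoin ℚ {ζ}).toSubalgebra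
    rw [IntermediateField.adjoin_simple_toSubalgebra_of_isAlgebraic halg]
    exact hζ.adjoin_isCyclotomicExtension ℚ
  let z : IntermediateField.adjoin ℚ {ζ} := IntermediateField.AdjoinSimple.gen ℚ ζ
  have hz : IsPrimitiveRoot z n := IsPrimitiveRoot.coe_submonoidClass_iff.mp hζ
  have h1 := IsCyclotomicExtension.Rat.isIntegralClosure_adjoin_singleton
    (K := IntermediateField.adjoin ℚ {ζ}) hz
  have h2 : IsIntegral ℤ (⟨x, hx⟩ : IntermediateField.adjoin ℚ {ζ}) := by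
    have h3 : Function.Injective (algebraMap (IntermediateField.adjoin ℚ {ζ}) ℂ) :=
      (algebraMap (IntermediateField.adjoin ℚ {ζ}) ℂ).injective
    rw [← isIntegral_algebraMap_iff h3]
    exact hi
  obtain ⟨y, hy⟩ := h1.isIntegral_iff.1 h2
  have h4 : (((y : IntermediateField.adjoin ℚ {ζ})) : ℂ) ∈ (Algebra.adjoin ℤ {z}).map
      ((IsScalarTower.toAlgHom ℤ (IntermediateField.adjoin ℚ {ζ}) ℂ) :
        IntermediateField.adjoin ℚ {ζ} →ₐ[ℤ] ℂ) := ⟨(y : IntermediateField.adjoin ℚ {ζ}), y.2, rfl⟩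
  rw [AlgHom.map_adjoin_singleton] at h4
  have h5 : (((y : IntermediateField.adjoin ℚ {ζ})) : ℂ) = x :=
    congrArg (fun t : IntermediateField.adjoin ℚ {ζ} => (t : ℂ)) hy
  rw [h5] at h4
  exact h4

theorem redC_pow {x : ℂ} (hx : IsIntegral ℤ x) (n : ℕ) : redC red (x ^ n) = redC red x ^ n := by
  induction n with
  | zero => rw [pow_zero, pow_zero, redC_one]
  | succ n ih => rw [pow_succ, pow_succ, redC_mul red (hx.pow n) hx, ih]

theorem int_root {x : ℂ} {n : ℕ} (hn : n ≠ 0) (hx : x ^ n = 1) : IsIntegral ℤ x :=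
  IsIntegral.of_pow (Nat.pos_of_ne_zero hn) (by rw [hx]; exact isIntegral_one)

/-- the roots of unity of `p`-power order have the residue `1` -/
theorem redC_proot {p : ℕ} [hp : Fact p.Prime] [CharP F p] {x : ℂ} {a : ℕ} (hx : x ^ p ^ a = 1) :
    redC red x = 1 := by
  have hi := int_root (pow_ne_zero a hp.out.ne_zero) hx
  have h1 : redC red x ^ p ^ a = 1 := by rw [← redC_pow red hi, hx, redC_one]
  have h2 : (redC red x - 1) ^ p ^ a = 0 := by
    rw [sub_pow_char_pow, h1, one_pow, sub_self]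
  have h3 : redC red x - 1 = 0 := by
    rw [pow_eq_zero_iff (pow_ne_zero a hp.out.ne_zero)] at h2
    exact h2
  exact sub_eq_zero.1 h3

theorem int_sigma (σ : ℂ ≃+* ℂ) {x : ℂ} (hx : IsIntegral ℤ x) : IsIntegral ℤ (σ x) :=
  hx.map (σ : ℂ →+* ℂ).toIntAlgHom

/-- automorphisms which fix the roots of unity of order `m` do not change the residues -/
theorem redC_sigma {p : ℕ} [hp : Fact p.Prime] [CharP F p] {m a : ℕ} (hm : m ≠ 0)
    (hpm : (p ^ a).Coprime m) {σ : ℂ ≃+* ℂ} (hσ : ∀ z : ℂ, z ^ m = 1 → σ z = z) {ζ : ℂ}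
    (hζ : IsPrimitiveRoot ζ (p ^ a * m)) {x : ℂ} (hx : x ∈ Algebra.adjoin ℤ {ζ}) :
    IsIntegral ℤ x ∧ redC red (σ x) = redC red x := by
  have hn : p ^ a * m ≠ 0 := mul_ne_zero (pow_ne_zero a hp.out.ne_zero) hm
  induction hx using Algebra.adjoin_induction with
  | mem x hx =>
    rw [Set.mem_singleton_iff] at hx
    subst hx
    refine ⟨hζ.isIntegral (Nat.pos_of_ne_zero hn), ?_⟩
    obtain ⟨u, u1, u2⟩ := Nat.chineseRemainder hpm 1 0
    obtain ⟨v, v1, v2⟩ := Nat.chineseRemainder hpm 0 1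
    have e : u + v ≡ 1 [MOD p ^ a * m] := by
      rw [← Nat.modEq_and_modEq_iff_modEq_mul hpm]
      exact ⟨by simpa using u1.add v1, by simpa using u2.add v2⟩
    have h3 : x = x ^ u * x ^ v := by
      rw [← pow_add, Pool.Agent.N19.RB.pow_modEq hζ.pow_eq_one e, pow_one]
    obtain ⟨c, hc⟩ := Nat.modEq_zero_iff_dvd.mp u2
    obtain ⟨d, hd⟩ := Nat.modEq_zero_iff_dvd.mp v1
    have h4 : (x ^ u) ^ p ^ a = 1 := by
      rw [← pow_mul, hc, show m * c * p ^ a = p ^ a * m * c by ring, pow_mul, hζ.pow_eq_one,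
        one_pow]
    have h5 : (x ^ v) ^ m = 1 := by
      rw [← pow_mul, hd, show p ^ a * d * m = p ^ a * m * d by ring, pow_mul, hζ.pow_eq_one,
        one_pow]
    have h6 : (σ (x ^ u)) ^ p ^ a = 1 := by rw [← map_pow, h4, map_one]
    have i1 := int_root (pow_ne_zero a hp.out.ne_zero) h4
    have i2 := int_root hm h5
    have i3 := int_root (pow_ne_zero a hp.out.ne_zero) h6
    rw [h3, map_mul, hσ _ h5, redC_mul red i3 i2, redC_mul red i1 i2, redC_proot red h6,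
      redC_proot red h4]
  | algebraMap r =>
    refine ⟨isIntegral_algebraMap, ?_⟩
    have h1 : (algebraMap ℤ ℂ) r = (r : ℂ) := rfl
    rw [h1, map_intCast]
  | add x y _ _ hx hy =>
    refine ⟨hx.1.add hy.1, ?_⟩
    rw [map_add, redC_add red (int_sigma σ hx.1) (int_sigma σ hy.1), redC_add red hx.1 hy.1, hx.2,
      hy.2]
  | mul x y _ _ hx hy =>
    refine ⟨hx.1.mul hy.1, ?_⟩
    rw [map_mul, redC_mul red (int_sigma σ hx.1) (int_sigma σ hy.1), redC_mul red hx.1 hy.1, hx.2,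
      hy.2]

/-- character values lie in the cyclotomic field -/
theorem val_mem {J : Type} [Group J] [Finite J] {χ : J → ℂ} (hχ : IsIrrChar χ) {n : ℕ}
    (hn : 0 < n) (hJ : Nat.card J ∣ n) {ζ : ℂ} (hζ : IsPrimitiveRoot ζ n) (g : J) :
    χ g ∈ IntermediateField.adjoin ℚ {ζ} := by
  obtain ⟨V, _, _, _, σ, hr, rfl⟩ := hχ
  have hg : g ^ n = 1 := by
    obtain ⟨c, rfl⟩ := hJ
    rw [pow_mul, pow_card_eq_one', one_pow]
  obtain ⟨c, hc⟩ := Pool.Agent.Q99.CT.char_expand σ g hn hg hζ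
  have h1 := hc 1
  rw [pow_one] at h1
  rw [h1]
  refine sum_mem fun i _ => mul_mem (natCast_mem _ _) ?_
  have hz : ζ ∈ IntermediateField.adjoin ℚ {ζ} := IntermediateField.mem_adjoin_simple_self ℚ ζ
  exact pow_mem hz _

open Pool.Agent.Q99.AS

/-- `σ` fixes the roots of unity of order `m`, the `p'`-part of `n` -/
structure Fixes (p n : ℕ) (σ : ℂ ≃+* ℂ) : Prop where
  ne : n ≠ 0
  fix : ∀ z : ℂ, z ^ (n / p ^ n.factorization p) = 1 → σ z = z

variable {p : ℕ} [hp : Fact p.Prime] [CharP F p]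

/-- the central characters -/
theorem lam_sigma {J G : Type} [Group J] [Group G] [Finite J] {n : ℕ} (hJ : Nat.card J ∣ n)
    {σ : ℂ ≃+* ℂ} (hσ : Fixes p n σ) {ϑ : J → ℂ} (hϑ : IsIrrChar ϑ) (φ : J →* G) (g : G) :
    lam red φ (fun x => σ (ϑ x)) g = lam red φ ϑ g := by
  have _f : Fintype J := Fintype.ofFinite J
  have hne := hσ.ne
  have _n : NeZero n := ⟨hne⟩
  have hm : n / p ^ n.factorization p ≠ 0 := by
    have := Nat.ordCompl_pos p hne
    omega
  have hcop : (p ^ n.factorization p).Coprime (n / p ^ n.factorization p) :=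
    (Nat.coprime_ordCompl hp.out hne).pow_left _
  have hmul : p ^ n.factorization p * (n / p ^ n.factorization p) = n :=
    Nat.ordProj_mul_ordCompl_eq_self n p
  have hζ : IsPrimitiveRoot (Complex.exp (2 * Real.pi * Complex.I / n)) n :=
    Complex.isPrimitiveRoot_exp n hne
  rw [lam_eq, lam_eq]
  have h1 : om (fun x => σ (ϑ x)) (fun x => (indi φ g x : ℂ)) =
      σ (om ϑ (fun x => (indi φ g x : ℂ))) := by
    unfold om
    rw [map_div₀, map_sum]
    congr 1
    refine Finset.sum_congr rfl fun x _ => ?_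
    rw [map_mul, map_intCast]
  rw [h1]
  have h2 : om ϑ (fun x => (indi φ g x : ℂ)) ∈
      IntermediateField.adjoin ℚ {Complex.exp (2 * Real.pi * Complex.I / n)} := by
    unfold om
    refine div_mem (sum_mem fun x _ => mul_mem (intCast_mem _ _) ?_) ?_
    · exact val_mem hϑ (Nat.pos_of_ne_zero hne) hJ hζ x
    · exact val_mem hϑ (Nat.pos_of_ne_zero hne) hJ hζ 1
  have h3 := mem_adjoin hζ h2 (om_int hϑ (indi_Cf φ g))
  have hζ' : IsPrimitiveRoot (Complex.exp (2 * Real.pi * Complex.I / n))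
      (p ^ n.factorization p * (n / p ^ n.factorization p)) := by
    rw [hmul]
    exact hζ
  exact (redC_sigma red hm hcop hσ.fix hζ' h3).2

/-- induced blocks -/
theorem induces_sigma {G : Type} [Group G] [Finite G] {σ : ℂ ≃+* ℂ}
    (hσ : Fixes p (Nat.card G) σ) {χ : G → ℂ} {H : Subgroup G} {ϑ : H → ℂ} (hϑ : IsIrrChar ϑ) :
    Induces red χ (fun x => σ (ϑ x)) ↔ Induces red χ ϑ := by
  unfold Induces
  refine forall_congr' fun g => ?_
  rw [lam_sigma red (Subgroup.card_subgroup_dvd_card H) hσ hϑ]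

theorem dft_sigma {σ : ℂ ≃+* ℂ} {d : ℕ} {H : Type} [Group H] {ϑ : H → ℂ} :
    Dft p d (fun x => σ (ϑ x)) ↔ Dft p d ϑ := by
  unfold Dft
  refine exists_congr fun n => and_congr_left fun _ => ?_
  constructor
  · intro h
    apply σ.injective
    rw [map_natCast]
    exact h
  · intro h
    change σ (ϑ 1) = _
    rw [h, map_natCast]

theorem fixes_symm {n : ℕ} {σ : ℂ ≃+* ℂ} (h : Fixes p n σ) : Fixes p n σ.symm :=
  ⟨h.ne, fun z hz => by
    rw [RingEquiv.symm_apply_eq]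
    exact (h.fix z hz).symm⟩

theorem irr_sigma {G : Type} [Group G] (σ : ℂ ≃+* ℂ) {χ : G → ℂ} :
    IsIrrChar (fun g => σ (χ g)) ↔ IsIrrChar χ := by
  constructor
  · intro h
    have h1 := Pool.Agent.Q90.WR.irr_gal σ.symm h
    simpa using h1
  · exact Pool.Agent.Q90.WR.irr_gal σ

/-- the bijection -/
theorem card_sigma {G : Type} [Group G] [Finite G] {σ : ℂ ≃+* ℂ} (hσ : Fixes p (Nat.card G) σ)
    (χ : G → ℂ) (d : ℕ) (H : Subgroup G) (A A' : (H → ℂ) → Prop)
    (hA : ∀ ϑ : H → ℂ, A' (fun x => σ (ϑ x)) ↔ A ϑ) :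
    Nat.card {ϑ : H → ℂ // IsIrrChar ϑ ∧ Induces red χ ϑ ∧ Dft p d ϑ ∧ A ϑ} =
      Nat.card {ϑ : H → ℂ // IsIrrChar ϑ ∧ Induces red χ ϑ ∧ Dft p d ϑ ∧ A' ϑ} := by
  refine Nat.card_congr
    { toFun := fun ϑ => ⟨fun x => σ (ϑ.1 x), (irr_sigma σ).2 ϑ.2.1,
        (induces_sigma red hσ ϑ.2.1).2 ϑ.2.2.1, dft_sigma.2 ϑ.2.2.2.1, (hA _).2 ϑ.2.2.2.2⟩
      invFun := fun ϑ => ⟨fun x => σ.symm (ϑ.1 x), (irr_sigma σ.symm).2 ϑ.2.1,
        (induces_sigma red (fixes_symm hσ) ϑ.2.1).2 ϑ.2.2.1, dft_sigma.2 ϑ.2.2.2.1, ?_⟩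
      left_inv := fun ϑ => by simp
      right_inv := fun ϑ => by simp }
  rw [← hA]
  simpa using ϑ.2.2.2.2

end Pool.Agent.U259.DP
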