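import Pool.Agent.U259.DP.Sig

/-!
# The alternating sums over a central character and the sums with a central subgroup in the kernel
-/

set_option autoImplicit false
set_option linter.unusedSectionVars false

open scoped Classical BigOperators

noncomputable section

namespace Pool.Agent.U259.DP

open Pool.Agent.Y63.NV (redC)
open Pool.Agent.Helper884.IC
open Pool.Agent.Q99.AS
open Pool.Agent.Y63.KR (conjSub chainStabilizer)

variable {G : Type} [Group G] [Finite G] {F : Type} [Field F] (red : integralClosure ℤ ℂ →+* F)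
  {p : ℕ} [hp : Fact p.Prime] [CharP F p] {O Z : Subgroup G} (hZ : Z ≤ Subgroup.center G)
  (hO : IsSyl p O Z)

/-- the kernel in `O` -/
def kr (hO : O ≤ Z) {μ : Z → ℂ} (hμ : μ 1 = 1 ∧ ∀ a b, μ (a * b) = μ a * μ b) : Subgroup G where
  carrier := {z | ∃ hz : z ∈ O, μ ⟨z, hO hz⟩ = 1}
  one_mem' := ⟨O.one_mem, hμ.1⟩
  mul_mem' := by
    rintro a b ⟨ha, ha'⟩ ⟨hb, hb'⟩
    refine ⟨O.mul_mem ha hb, ?_⟩
    have h1 := hμ.2 ⟨a, hO ha⟩ ⟨b, hO hb⟩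
    rw [ha', hb', one_mul] at h1
    exact h1
  inv_mem' := by
    rintro a ⟨ha, ha'⟩
    refine ⟨O.inv_mem ha, ?_⟩
    have h1 := hμ.2 ⟨a, hO ha⟩ ⟨a⁻¹, hO (O.inv_mem ha)⟩
    have h2 : (⟨a, hO ha⟩ * ⟨a⁻¹, hO (O.inv_mem ha)⟩ : Z) = 1 :=
      Subtype.ext (mul_inv_cancel a)
    rw [h2, hμ.1, ha', one_mul] at h1
    exact h1.symm

theorem kr_le (h : O ≤ Z) {μ : Z → ℂ} (hμ : μ 1 = 1 ∧ ∀ a b, μ (a * b) = μ a * μ b) :
    kr h hμ ≤ O := by
  rintro z ⟨hz, -⟩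
  exact hz

theorem tr_iff (h : O ≤ Z) {μ : Z → ℂ} (hμ : μ 1 = 1 ∧ ∀ a b, μ (a * b) = μ a * μ b)
    {K : Subgroup G} (hK : K ≤ O) : Tr K μ ↔ K ≤ kr h hμ := by
  constructor
  · intro h1 z hz
    exact ⟨hK hz, h1 ⟨z, h (hK hz)⟩ hz⟩
  · intro h1 z hz
    exact (h1 hz).2

/-- `O / K` is cyclic -/
def Cyc (O K : Subgroup G) : Prop := ∃ z₀ ∈ O, ∀ z ∈ O, ∃ j : ℕ, z * (z₀ ^ j)⁻¹ ∈ K

omit hp in
theorem cyc_kr (h : O ≤ Z) {μ : Z → ℂ} (hμ : μ 1 = 1 ∧ ∀ a b, μ (a * b) = μ a * μ b) :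
    Cyc O (kr h hμ) := by
  let ν : O → ℂ := fun a => μ ⟨a.1, h a.2⟩
  have hν : ∀ a b : O, ν (a * b) = ν a * ν b := fun a b => hμ.2 ⟨a.1, h a.2⟩ ⟨b.1, h b.2⟩
  let l : O →* ℂˣ := MonoidHom.toHomUnits ⟨⟨ν, hμ.1⟩, hν⟩
  have hl : ∀ a, ((l a : ℂˣ) : ℂ) = ν a := fun a => rfl
  have hfin : Finite l.range := Finite.of_surjective l.rangeRestrict l.rangeRestrict_surjective
  have hcyc : IsCyclic l.range := inferInstance
  obtain ⟨⟨_, z, rfl⟩, hz⟩ := hcyc.exists_generator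
  refine ⟨z.1, z.2, fun a ha => ?_⟩
  obtain ⟨j, hj⟩ := (mem_powers_iff_mem_zpowers.2 (hz ⟨l ⟨a, ha⟩, ⟨a, ha⟩, rfl⟩))
  have hj' : l z ^ j = l ⟨a, ha⟩ := congrArg Subtype.val hj
  have h2 : l (⟨a, ha⟩ * (z ^ j)⁻¹) = 1 := by
    rw [map_mul, map_inv, map_pow, hj', mul_inv_cancel]
  have h3 : ν (⟨a, ha⟩ * (z ^ j)⁻¹) = 1 := by
    rw [← hl, h2, Units.val_one]
  exact ⟨j, (⟨a, ha⟩ * (z ^ j)⁻¹ : O).2, h3⟩

include hZ hO

theorem rt_eq {χ : G → ℂ} {μ μ' : Z → ℂ} (hμ : IsIrrChar μ) (hμ' : IsIrrChar μ')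
    (h : Rt red p χ μ) (h' : Rt red p χ μ') (z : Z) (hz : ¬ p ∣ orderOf (z : G)) :
    μ z = μ' z := by
  obtain ⟨a1, am⟩ := lin_of hZ hμ
  obtain ⟨b1, bm⟩ := lin_of hZ hμ'
  have mpow : ∀ {ν : Z → ℂ}, ν 1 = 1 → (∀ a b, ν (a * b) = ν a * ν b) → ∀ (x : Z) (n : ℕ),
      ν (x ^ n) = ν x ^ n := by
    intro ν g1 gm x n
    induction n with
    | zero => rw [pow_zero, pow_zero, g1]
    | succ n ih => rw [pow_succ, pow_succ, gm, ih]
  have h1 : z ^ orderOf (z : G) = 1 := Subtype.ext (pow_orderOf_eq_one (z : G))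
  refine root_eq red hz ?_ ?_ ((h z hz).trans (h' z hz).symm)
  · rw [← mpow a1 am, h1, a1]
  · rw [← mpow b1 bm, h1, b1]

/-- **From the kernels to the characters** -/
theorem all_of_ker {O' : Subgroup G} {χ : G → ℂ} {d : ℕ}
    (h : ∀ K ≤ O, Cyc O K → asum p red O' χ d (fun _ ϑ => InKer K ϑ) = 0) {μ : Z → ℂ} (hμ : IsIrrChar μ) :
    asum p red O' χ d (fun _ ϑ => Over μ ϑ) = 0 := by
  have _f : Fintype Z := Fintype.ofFinite Z
  suffices H : ∀ (n : ℕ) (μ : Z → ℂ) (hμ : IsIrrChar μ),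
      Nat.card O - Nat.card (kr hO.1 (lin_of hZ hμ)) = n →
      asum p red O' χ d (fun _ ϑ => Over μ ϑ) = 0 from H _ μ hμ rfl
  intro n
  induction n using Nat.strong_induction_on with
  | _ n ih =>
    intro μ hμ hn
    by_cases hR : Rt red p χ μ
    swap
    · exact asum_zero red hZ hR
    have h1 := asum_ker red (p := p) hZ ((kr_le hO.1 (lin_of hZ hμ)).trans hO.1) O' χ d
    rw [h _ (kr_le hO.1 (lin_of hZ hμ)) (cyc_kr hO.1 (lin_of hZ hμ))] at h1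
    have h2 : ∀ μ' ∈ (Irr Z).filter (Tr (kr hO.1 (lin_of hZ hμ))),
        asum p red O' χ d (fun _ ϑ => Over μ' ϑ) =
          if Rt red p χ μ' ∧ (∀ z : Z, (z : G) ∈ O → (μ z = 1 ↔ μ' z = 1)) then
            asum p red O' χ d (fun _ ϑ => Over μ ϑ) else 0 := by
      intro μ' hμ'
      rw [Finset.mem_filter, mem_Irr] at hμ'
      obtain ⟨hi, ht⟩ := hμ'
      by_cases hR' : Rt red p χ μ'
      swap
      · rw [if_neg fun h => hR' h.1]
        exact asum_zero red hZ hR'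
      by_cases hk : ∀ z : Z, (z : G) ∈ O → (μ z = 1 ↔ μ' z = 1)
      · rw [if_pos ⟨hR', hk⟩]
        exact (asum_eq red hZ hO hμ hi (rt_eq red hZ hO hμ hi hR hR') hk O' χ d).symm
      · rw [if_neg fun h => hk h.2]
        have hle : kr hO.1 (lin_of hZ hμ) ≤ kr hO.1 (lin_of hZ hi) :=
          (tr_iff hO.1 (lin_of hZ hi) (kr_le hO.1 (lin_of hZ hμ))).1 ht
        have hlt : kr hO.1 (lin_of hZ hμ) < kr hO.1 (lin_of hZ hi) := by
          refine lt_of_le_of_ne hle fun heq => hk fun z hz => ?_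
          have e1 : (z : G) ∈ kr hO.1 (lin_of hZ hμ) ↔ (z : G) ∈ kr hO.1 (lin_of hZ hi) := by
            rw [heq]
          constructor
          · intro h3
            exact (e1.1 ⟨hz, h3⟩).2
          · intro h3
            exact (e1.2 ⟨hz, h3⟩).2
        have hc1 : Nat.card (kr hO.1 (lin_of hZ hμ)) < Nat.card (kr hO.1 (lin_of hZ hi)) :=
          Set.Finite.card_lt_card (Set.toFinite _) hlt
        have hc2 : Nat.card (kr hO.1 (lin_of hZ hi)) ≤ Nat.card O :=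
          Nat.le_of_dvd Nat.card_pos (Subgroup.card_dvd_of_le (kr_le hO.1 (lin_of hZ hi)))
        exact ih _ (by omega) μ' hi rfl
    rw [Finset.sum_congr rfl h2, ← Finset.sum_filter, Finset.sum_const, nsmul_eq_mul] at h1
    have h3 : μ ∈ ((Irr Z).filter (Tr (kr hO.1 (lin_of hZ hμ)))).filter fun μ' =>
        Rt red p χ μ' ∧ ∀ z : Z, (z : G) ∈ O → (μ z = 1 ↔ μ' z = 1) := by
      rw [Finset.mem_filter, Finset.mem_filter, mem_Irr]
      exact ⟨⟨hμ, (tr_iff hO.1 (lin_of hZ hμ) (kr_le hO.1 (lin_of hZ hμ))).2 le_rfl⟩, hR,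
        fun z _ => Iff.rfl⟩
    have h4 := Finset.card_pos.2 ⟨μ, h3⟩
    rcases mul_eq_zero.1 h1.symm with h5 | h5
    · exact absurd h5 (by exact_mod_cast h4.ne')
    · exact h5

end Pool.Agent.U259.DP
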