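import Pool.Agent.U259.DP.Gal
import Pool.Agent.N19.RB.Tst
import Pool.Agent.K3h3.MK.Cnt

/-!
# Characters over characters of a central subgroup
-/

set_option autoImplicit false
set_option linter.unusedSectionVars false

open scoped Classical BigOperators

noncomputable section

namespace Pool.Agent.U259.DP

open Pool.Agent.Y63.NV (redC)
open Pool.Agent.Y930.NV (om Tp Tp_eq Cf)
open Pool.Agent.Helper884.IC
open Pool.Agent.Q99.AS
open Pool.Agent.Y63.KR (conjSub chainStabilizer)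

/-- central elements act as scalars -/
theorem central {J : Type} [Group J] [Finite J] {χ : J → ℂ} (h : IsIrrChar χ) {z : J}
    (hz : ∀ x, x * z = z * x) (x : J) : χ (z * x) * χ 1 = χ z * χ x := by
  have _f : Fintype J := Fintype.ofFinite J
  have h6 := irr_one_ne' h
  obtain ⟨V, _, _, _, ρ, hr, rfl⟩ := h
  have hcf : Cf (Pi.single z (1 : ℂ) : J → ℂ) := by
    intro g y
    have h1 : g * y * g⁻¹ = z ↔ y = z := by
      constructor
      · intro h
        have h2 : y = g⁻¹ * z * g := by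
          rw [← h]
          group
        rw [h2, mul_assoc, ← hz, inv_mul_cancel_left]
      · rintro rfl
        rw [hz, mul_inv_cancel_right]
    by_cases hy : y = z
    · rw [h1.2 hy, hy]
    · rw [Pi.single_eq_of_ne hy, Pi.single_eq_of_ne fun h => hy (h1.1 h)]
  have h2 := Tp_eq ρ hr _ hcf
  have h3 : Tp ρ (Pi.single z (1 : ℂ)) = ρ z := by
    unfold Pool.Agent.Y930.NV.Tp
    rw [Finset.sum_eq_single z]
    · rw [Pi.single_eq_same, one_smul]
    · intro g _ hg
      rw [Pi.single_eq_of_ne hg, zero_smul]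
    · intro h
      exact absurd (Finset.mem_univ _) h
  have h4 : om ρ.character (Pi.single z (1 : ℂ)) = ρ.character z / ρ.character 1 := by
    unfold Pool.Agent.Y930.NV.om
    rw [Finset.sum_eq_single z]
    · rw [Pi.single_eq_same, one_mul]
    · intro g _ hg
      rw [Pi.single_eq_of_ne hg, zero_mul]
    · intro h
      exact absurd (Finset.mem_univ _) h
  rw [h3, h4] at h2
  have h5 : ρ.character (z * x) = ρ.character z / ρ.character 1 * ρ.character x := by
    change LinearMap.trace ℂ V (ρ (z * x)) = _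
    rw [map_mul, h2, smul_mul_assoc, one_mul, map_smul, smul_eq_mul]
    rfl
  rw [h5]
  field_simp

variable {G : Type} [Group G]

/-- the character `ϑ` of `H` lies over the character `μ` of the central subgroup `Z` -/
def Over {Z : Subgroup G} (μ : Z → ℂ) {H : Subgroup G} (ϑ : H → ℂ) : Prop :=
  ∀ (z : G) (hz : z ∈ Z) (hH : z ∈ H), ϑ ⟨z, hH⟩ = ϑ 1 * μ ⟨z, hz⟩

/-- `K` is in the kernel of `ϑ` -/
def InKer (K : Subgroup G) {H : Subgroup G} (ϑ : H → ℂ) : Prop :=
  ∀ (z : G) (_ : z ∈ K) (hH : z ∈ H), ϑ ⟨z, hH⟩ = ϑ 1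

variable {F : Type} [Field F]

/-- `bl(ϑ)^G = bl(χ)` -/
def Ind (p : ℕ) (red : integralClosure ℤ ℂ →+* F) (χ : G → ℂ) {H : Subgroup G} (ϑ : H → ℂ) : Prop :=
  ∀ g : G, ¬ p ∣ orderOf g → lam red H.subtype ϑ g = lam red (MonoidHom.id G) χ g

/-- the number of the `ϑ` with the property `A` -/
def nm (p : ℕ) (red : integralClosure ℤ ℂ →+* F) (χ : G → ℂ) (d : ℕ)
    (A : ∀ H : Subgroup G, (H → ℂ) → Prop) (H : Subgroup G) : ℤ :=
  Nat.card {ϑ : H → ℂ // IsIrrChar ϑ ∧ Ind p red χ ϑ ∧ Dft p d ϑ ∧ A H ϑ}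

/-- the alternating sum -/
def asum (p : ℕ) (red : integralClosure ℤ ℂ →+* F) (O : Subgroup G) (χ : G → ℂ) (d : ℕ)
    (A : ∀ H : Subgroup G, (H → ℂ) → Prop) : ℤ := altSum p O (nm p red χ d A)

theorem nm_eq [Finite G] (p : ℕ) (red : integralClosure ℤ ℂ →+* F) (χ : G → ℂ) (d : ℕ)
    (A : ∀ H : Subgroup G, (H → ℂ) → Prop) (H : Subgroup G) [Fintype H] :
    nm p red χ d A H =
      ((Irr H).filter fun ϑ => Ind p red χ ϑ ∧ Dft p d ϑ ∧ A H ϑ).card := by
  unfold nm
  rw [Pool.Agent.Q90.WR.card_filter_eq]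

theorem altSum_congr {p : ℕ} {O : Subgroup G} {f f' : Subgroup G → ℤ}
    (h : ∀ σ : Set (Subgroup G), IsCh p O σ → f (chainStabilizer σ) = f' (chainStabilizer σ)) :
    altSum p O f = altSum p O f' := by
  unfold altSum
  exact finsum_congr fun c => by rw [h _ c.out.2]

theorem altSum_sum [Finite G] {p : ℕ} {O : Subgroup G} {ι : Type} (I : Finset ι)
    (f : ι → Subgroup G → ℤ) :
    altSum p O (fun H => ∑ i ∈ I, f i H) = ∑ i ∈ I, altSum p O (f i) := by
  have _i : Fintype (Quotient (chSetoid p O)) := Fintype.ofFinite _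
  unfold altSum
  simp only [finsum_eq_sum_of_fintype]
  rw [Finset.sum_comm]
  refine Finset.sum_congr rfl fun c _ => ?_
  rw [Finset.mul_sum]

theorem center_le_stab {σ : Set (Subgroup G)} : Subgroup.center G ≤ chainStabilizer σ := by
  rw [le_stab]
  intro P _ z hz
  rw [mem_normalizer']
  intro x
  rw [← Subgroup.mem_center_iff.1 hz x, mul_inv_cancel_right]

section lin

variable {Z : Subgroup G}

/-- the central character -/
def mu (Z : Subgroup G) {H : Subgroup G} (hZH : Z ≤ H) (ϑ : H → ℂ) : Z → ℂ :=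
  fun z => ϑ ⟨z.1, hZH z.2⟩ / ϑ 1

variable [Finite G] (hZ : Z ≤ Subgroup.center G) {H : Subgroup G} (hZH : Z ≤ H) {ϑ : H → ℂ}
  (hϑ : IsIrrChar ϑ)

include hϑ hZ

theorem mu_mul (a b : Z) : mu Z hZH ϑ (a * b) = mu Z hZH ϑ a * mu Z hZH ϑ b := by
  have h1 := irr_one_ne' hϑ
  have h2 := central hϑ (z := ⟨a.1, hZH a.2⟩) (fun x => Subtype.ext
    (Subgroup.mem_center_iff.1 (hZ a.2) x.1)) ⟨b.1, hZH b.2⟩
  have h3 : (⟨(a * b : Z), hZH (a * b).2⟩ : H) = ⟨a.1, hZH a.2⟩ * ⟨b.1, hZH b.2⟩ := rfl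
  unfold mu
  rw [h3, div_mul_div_comm, ← h2]
  field_simp

omit hZ in
theorem mu_one : mu Z hZH ϑ 1 = 1 := by
  have h1 := irr_one_ne' hϑ
  unfold mu
  have h2 : (⟨((1 : Z) : G), hZH (1 : Z).2⟩ : H) = 1 := rfl
  rw [h2, div_self h1]

theorem mu_irr : IsIrrChar (mu Z hZH ϑ) := by
  have _f : Fintype Z := Fintype.ofFinite Z
  exact Pool.Agent.N19.RB.irr_lin (mu_one hZH hϑ) (mu_mul hZ hZH hϑ)

omit hZ in
theorem over_iff {μ : Z → ℂ} : Over μ ϑ ↔ mu Z hZH ϑ = μ := by
  have h1 := irr_one_ne' hϑ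
  constructor
  · intro h
    funext z
    unfold mu
    rw [h z.1 z.2 (hZH z.2), mul_div_cancel_left₀ _ h1]
  · rintro rfl z hz hH
    unfold mu
    rw [mul_div_cancel₀ _ h1]

end lin

/-- linear characters of a central subgroup -/
theorem lin_of {Z : Subgroup G} [Finite G] (hZ : Z ≤ Subgroup.center G) {μ : Z → ℂ}
    (hμ : IsIrrChar μ) : μ 1 = 1 ∧ ∀ a b, μ (a * b) = μ a * μ b := by
  have _f : Fintype Z := Fintype.ofFinite Z
  have hc : ∀ a b : Z, a * b = b * a := fun a b =>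
    Subtype.ext (Subgroup.mem_center_iff.1 (hZ b.2) a.1)
  let _c : CommGroup Z := { (inferInstance : Group Z) with mul_comm := hc }
  obtain ⟨l, hl⟩ := Pool.Agent.K3h3.MK.lin_of_comm (N := Z) hμ
  subst hl
  refine ⟨by simp, fun a b => by simp⟩

end Pool.Agent.U259.DP
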