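import Pool.Agent.U259.DP.Fin
import Pool.Agent.Q99.AS.Pow

/-!
# The alternating sums of direct products
-/

set_option autoImplicit false
set_option linter.unusedSectionVars false

open scoped Classical BigOperators

noncomputable section

namespace Pool.Agent.U259.DP

open Pool.Agent.Y63.NV (redC)
open Pool.Agent.Helper884.IC
open Pool.Agent.Q99.AS
open Pool.Agent.Y63.KR (conjSub chainStabilizer)
open Pool.Agent.Q90.WR (card_transport)

variable {F : Type} [Field F] (red : integralClosure ℤ ℂ →+* F)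

variable {G G' : Type} [Group G] [Group G'] [Finite G] [Finite G']

theorem ind_ten {p : ℕ} {χ : G → ℂ} {χ' : G' → ℂ} (hχ : IsIrrChar χ)
    (hχ' : IsIrrChar χ') {H : Subgroup G} {K : Subgroup G'} {θ : H → ℂ} {ψ : K → ℂ}
    (h1 : IsIrrChar θ) (h2 : IsIrrChar ψ) :
    Ind p red (ten χ χ') (H := H.prod K) (fun x => ten θ ψ (Subgroup.prodEquiv H K x)) ↔
      Ind p red χ θ ∧ Ind p red χ' ψ := by
  have := Fintype.ofFinite G
  have := Fintype.ofFinite G'
  have := Fintype.ofFinite H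
  have := Fintype.ofFinite K
  have e1 : ∀ (g : G) (g' : G'), lam red (H.prod K).subtype
      (fun x => ten θ ψ (Subgroup.prodEquiv H K x)) (g, g') =
        lam red H.subtype θ g * lam red K.subtype ψ g' := by
    intro g g'
    rw [lam_congr red (Subgroup.prodEquiv H K) (H.prod K).subtype (H.subtype.prodMap K.subtype)
      (fun x => IsConj.refl _) (ten θ ψ), lam_ten red h1 h2]
  have e2 : ∀ (g : G) (g' : G'), lam red (MonoidHom.id (G × G')) (ten χ χ') (g, g') =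
      lam red (MonoidHom.id G) χ g * lam red (MonoidHom.id G') χ' g' := by
    intro g g'
    exact lam_ten red hχ hχ' (MonoidHom.id G) (MonoidHom.id G') g g'
  have i1 := lam_one red (irr_one_ne' h1) (φ := H.subtype) H.subtype_injective
  have i2 := lam_one red (irr_one_ne' h2) (φ := K.subtype) K.subtype_injective
  have i3 := lam_one red (irr_one_ne' hχ) (φ := MonoidHom.id G) Function.injective_id
  have i4 := lam_one red (irr_one_ne' hχ') (φ := MonoidHom.id G') Function.injective_id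
  constructor
  · intro h
    refine ⟨fun g hg => ?_, fun g' hg' => ?_⟩
    · have := h (g, 1) (by rw [Prod.orderOf, orderOf_one, Nat.lcm_one_right]; exact hg)
      rwa [e1, e2, i2, i4, mul_one, mul_one] at this
    · have := h (1, g') (by rw [Prod.orderOf, orderOf_one, Nat.lcm_one_left]; exact hg')
      rwa [e1, e2, i1, i3, one_mul, one_mul] at this
  · rintro ⟨h, h'⟩ ⟨g, g'⟩ hg
    rw [Prod.orderOf] at hg
    rw [e1, e2, h g fun h => hg (h.trans (Nat.dvd_lcm_left _ _)),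
      h' g' fun h => hg (h.trans (Nat.dvd_lcm_right _ _))]

/-- the character `μ ⊗ μ'` -/
def tZ {Z : Subgroup G} {Z' : Subgroup G'} (μ : Z → ℂ) (μ' : Z' → ℂ) : Z.prod Z' → ℂ :=
  fun x => ten μ μ' (Subgroup.prodEquiv Z Z' x)

omit [Finite G] in
theorem over_conj {Z : Subgroup G} (hZ : Z ≤ Subgroup.center G) (μ : Z → ℂ)
    (g : G) (H : Subgroup G) (ϑ : conjSub g H → ℂ) :
    Over μ (fun x => ϑ (cj g H x)) ↔ Over μ ϑ := by
  have hc : ∀ z ∈ Z, g * z * g⁻¹ = z := by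
    intro z hz
    rw [Subgroup.mem_center_iff.1 (hZ hz) g, mul_inv_cancel_right]
  constructor
  · intro h z hz hH
    have hH' : z ∈ H := by
      obtain ⟨y, hy, e⟩ := Subgroup.mem_map.1 hH
      have e' : g * y * g⁻¹ = z := e
      have : y = z := by
        have h1 : y = g⁻¹ * z * g := by
          rw [← e']
          group
        have h2 : g⁻¹ * z * g = z := by
          rw [mul_assoc, ← Subgroup.mem_center_iff.1 (hZ hz) g, inv_mul_cancel_left]
        rw [h1, h2]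
      rwa [← this]
    have h1 := h z hz hH'
    have h2 : cj g H ⟨z, hH'⟩ = ⟨z, hH⟩ := Subtype.ext (hc z hz)
    simp only [h2, map_one] at h1
    exact h1
  · intro h z hz hH
    have hH' : z ∈ conjSub g H := Subgroup.mem_map.2 ⟨z, hH, hc z hz⟩
    have h2 : cj g H ⟨z, hH⟩ = ⟨z, hH'⟩ := Subtype.ext (hc z hz)
    simp only [h2, map_one]
    exact h z hz hH'

theorem over_prod {Z : Subgroup G} {Z' : Subgroup G'} {μ : Z → ℂ} {μ' : Z' → ℂ}
    (hμ : μ 1 = 1) (hμ' : μ' 1 = 1) (H : Subgroup G) (K : Subgroup G') (θ : H → ℂ) (ψ : K → ℂ)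
    (hθ : IsIrrChar θ) (hψ : IsIrrChar ψ) :
    Over (tZ μ μ') (fun x => ten θ ψ (Subgroup.prodEquiv H K x)) ↔ Over μ θ ∧ Over μ' ψ := by
  have hθ1 := irr_one_ne' hθ
  have hψ1 := irr_one_ne' hψ
  constructor
  · intro h
    have h' : ∀ (a : G) (b : G') (ha : a ∈ Z) (hb : b ∈ Z') (ha' : a ∈ H) (hb' : b ∈ K),
        θ ⟨a, ha'⟩ * ψ ⟨b, hb'⟩ = θ 1 * ψ 1 * (μ ⟨a, ha⟩ * μ' ⟨b, hb⟩) :=
      fun a b ha hb ha' hb' => h (a, b) ⟨ha, hb⟩ ⟨ha', hb'⟩
    refine ⟨fun z hz hH => ?_, fun z hz hH => ?_⟩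
    · have h1 : θ ⟨z, hH⟩ * ψ 1 = θ 1 * ψ 1 * (μ ⟨z, hz⟩ * μ' 1) :=
        h' z 1 hz (one_mem _) hH (one_mem _)
      rw [hμ', mul_one] at h1
      apply mul_right_cancel₀ hψ1
      rw [h1]
      ring
    · have h1 : θ 1 * ψ ⟨z, hH⟩ = θ 1 * ψ 1 * (μ 1 * μ' ⟨z, hz⟩) :=
        h' 1 z (one_mem _) hz (one_mem _) hH
      rw [hμ, one_mul] at h1
      apply mul_left_cancel₀ hθ1
      rw [h1]
      ring
  · rintro ⟨h1, h2⟩ ⟨a, b⟩ hz hH
    have e1 := h1 a hz.1 hH.1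
    have e2 := h2 b hz.2 hH.2
    change θ ⟨a, hH.1⟩ * ψ ⟨b, hH.2⟩ = θ 1 * ψ 1 * (μ ⟨a, hz.1⟩ * μ' ⟨b, hz.2⟩)
    rw [e1, e2]
    ring

/-- **Convolution** -/
theorem asum_prod {p : ℕ} [Fact p.Prime] {O : Subgroup G} {O' : Subgroup G'}
    {χ : G → ℂ} {χ' : G' → ℂ} (hO : IsPGroup p O) (hO' : IsPGroup p O') (n : O.Normal)
    (n' : O'.Normal) (hχ : IsIrrChar χ) (hχ' : IsIrrChar χ') {Z : Subgroup G} {Z' : Subgroup G'}
    (hZ : Z ≤ Subgroup.center G) (hZ' : Z' ≤ Subgroup.center G') {μ : Z → ℂ} {μ' : Z' → ℂ}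
    (hμ : μ 1 = 1) (hμ' : μ' 1 = 1) (d : ℕ) :
    asum p red (O.prod O') (ten χ χ') d (fun _ ϑ => Over (tZ μ μ') ϑ) =
      ∑ i ∈ Finset.HasAntidiagonal.antidiagonal d,
        asum p red O χ i.1 (fun _ ϑ => Over μ ϑ) * asum p red O' χ' i.2 (fun _ ϑ => Over μ' ϑ) := by
  have := Fintype.ofFinite G
  have := Fintype.ofFinite G'
  unfold asum
  refine altSum_prod hO hO' n n' (Finset.HasAntidiagonal.antidiagonal d) _
    (fun i : ℕ × ℕ => nm p red χ i.1 (fun _ ϑ => Over μ ϑ))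
    (fun i : ℕ × ℕ => nm p red χ' i.2 (fun _ ϑ => Over μ' ϑ))
    (nm_conj red _ _ (over_conj (center_prod hZ hZ') (tZ μ μ')))
    (fun i => nm_conj red _ _ (over_conj hZ μ))
    (fun i => nm_conj red _ _ (over_conj hZ' μ')) ?_
  intro H K
  have := Fintype.ofFinite H
  have := Fintype.ofFinite K
  unfold nm
  rw [card_transport (Subgroup.prodEquiv H K)]
  rw [card_prod (Finset.HasAntidiagonal.antidiagonal d) _
    (fun (i : ℕ × ℕ) θ => Ind p red χ θ ∧ Dft p i.1 θ ∧ Over μ θ)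
    (fun (i : ℕ × ℕ) ψ => Ind p red χ' ψ ∧ Dft p i.2 ψ ∧ Over μ' ψ)]
  · push_cast
    rfl
  · intro θ ψ h1 h2
    have e : Dft p d (fun x => ten θ ψ (Subgroup.prodEquiv H K x)) ↔ Dft p d (ten θ ψ) :=
      Dft_congr (Subgroup.prodEquiv H K) (ten θ ψ)
    rw [ind_ten red hχ hχ' h1 h2, e, Dft_ten h1 h2]
    beta_reduce
    rw [over_prod hμ hμ' H K θ ψ h1 h2]
    constructor
    · rintro ⟨⟨a, b⟩, ⟨i, hi, c, d⟩, e, f⟩
      exact ⟨i, hi, ⟨a, c, e⟩, b, d, f⟩
    · rintro ⟨i, hi, ⟨a, c, e⟩, b, d, f⟩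
      exact ⟨⟨a, b⟩, ⟨i, hi, c, d⟩, e, f⟩
  · intro θ ψ i hi j hj h1 h2 h3 h4
    exact Prod.ext (Dft_unique h1.2.1 h3.2.1) (Dft_unique h2.2.1 h4.2.1)

omit [Finite G] [Finite G'] in
theorem cent_prod (g : G) (g' : G') :
    Subgroup.centralizer ({(g, g')} : Set (G × G')) =
      (Subgroup.centralizer ({g} : Set G)).prod (Subgroup.centralizer ({g'} : Set G')) := by
  ext ⟨a, b⟩
  rw [Subgroup.mem_prod, Subgroup.mem_centralizer_singleton_iff,
    Subgroup.mem_centralizer_singleton_iff, Subgroup.mem_centralizer_singleton_iff]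
  simp only [Prod.mk_mul_mk, Prod.mk.injEq]

/-- the defect groups of products -/
theorem bg_prod {p : ℕ} [hp : Fact p.Prime] {O : Subgroup G} {O' : Subgroup G'}
    {χ : G → ℂ} {χ' : G' → ℂ} (hχ : IsIrrChar χ) (hχ' : IsIrrChar χ') (h : Bg red p O χ)
    (h' : Bg red p O' χ') : Bg red p (O.prod O') (ten χ χ') := by
  have := Fintype.ofFinite G
  have := Fintype.ofFinite G'
  rintro ⟨g, g'⟩ hg hne
  have e2 : lam red (MonoidHom.id (G × G')) (ten χ χ') (g, g') =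
      lam red (MonoidHom.id G) χ g * lam red (MonoidHom.id G') χ' g' :=
    lam_ten red hχ hχ' (MonoidHom.id G) (MonoidHom.id G') g g'
  rw [e2] at hne
  rw [Prod.orderOf] at hg
  have h1 := h g (fun h => hg (h.trans (Nat.dvd_lcm_left _ _))) (left_ne_zero_of_mul hne)
  have h2 := h' g' (fun h => hg (h.trans (Nat.dvd_lcm_right _ _))) (right_ne_zero_of_mul hne)
  rw [cent_prod, card_prod', card_prod', Nat.factorization_mul Nat.card_pos.ne' Nat.card_pos.ne',
    Finsupp.add_apply, pow_add]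
  exact Nat.mul_lt_mul'' h1 h2

end Pool.Agent.U259.DP
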