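import Pool.Agent.Q99.AS.Chain

/-!
# Alternating sums over chains and quotients by normal `p`-subgroups
-/

set_option autoImplicit false
set_option linter.unusedSectionVars false

open scoped Classical BigOperators

noncomputable section

namespace Pool.Agent.U259.DP

open Pool.Agent.Q99.AS
open Pool.Agent.Y63.KR

variable {G Q : Type} [Group G] [Group Q] {π : G →* Q} (hπ : Function.Surjective π)

theorem map_conj (π : G →* Q) (g : G) (P : Subgroup G) :
    (conjSub g P).map π = conjSub (π g) (P.map π) := by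
  ext y
  constructor
  · rintro ⟨_, ⟨x, hx, rfl⟩, rfl⟩
    exact ⟨π x, ⟨x, hx, rfl⟩, by simp⟩
  · rintro ⟨_, ⟨x, hx, rfl⟩, rfl⟩
    exact ⟨_, ⟨x, hx, rfl⟩, by simp⟩

include hπ

theorem card_map' [Finite G] {H : Subgroup G} (h : π.ker ≤ H) :
    Nat.card H = Nat.card π.ker * Nat.card (H.map π) := by
  have _q : Finite Q := Finite.of_surjective π hπ
  have h1 := Subgroup.index_map_eq H hπ h
  have h2 := Subgroup.card_mul_index H
  have h3 := Subgroup.card_mul_index (H.map π)
  have h4 := Subgroup.card_mul_index π.ker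
  have h5 : π.ker.index = Nat.card Q := by
    rw [Subgroup.index_ker]
    exact Nat.card_congr (Equiv.ofBijective (fun x : π.range => (x : Q))
      ⟨Subtype.val_injective, fun y => by
        obtain ⟨x, rfl⟩ := hπ y
        exact ⟨⟨π x, x, rfl⟩, rfl⟩⟩)
  rw [h1] at h3
  have h6 : 0 < H.index := Nat.pos_of_ne_zero Subgroup.index_ne_zero_of_finite
  rw [h5, ← h3, ← h2] at h4
  have h7 : Nat.card H * H.index = Nat.card π.ker * Nat.card (H.map π) * H.index := by
    rw [← h4]
    ring
  exact Nat.eq_of_mul_eq_mul_right h6 h7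

theorem stab_map [Finite G] {σ : Set (Subgroup G)} (h : ∀ P ∈ σ, π.ker ≤ P) :
    chainStabilizer ((fun P : Subgroup G => P.map π) '' σ) = (chainStabilizer σ).map π := by
  ext y
  obtain ⟨g, rfl⟩ := hπ y
  have key : ∀ x : G, π x ∈ chainStabilizer ((fun P : Subgroup G => P.map π) '' σ) ↔
      x ∈ chainStabilizer σ := by
    intro x
    rw [mem_chainStabilizer, mem_chainStabilizer]
    constructor
    · intro h1 P hP
      have h2 := h1 _ ⟨P, hP, rfl⟩
      rw [← map_conj] at h2
      refine Subgroup.map_injective_of_ker_le π ?_ (h P hP) h2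
      intro z hz
      have h3 : x⁻¹ * z * x ∈ P := h P hP (by
        rw [MonoidHom.mem_ker] at hz ⊢
        rw [map_mul, map_mul, hz, mul_one, map_inv, inv_mul_cancel])
      exact ⟨_, h3, by simp [mul_assoc]⟩
    · rintro h1 _ ⟨P, hP, rfl⟩
      rw [← map_conj, h1 P hP]
  rw [key]
  constructor
  · intro h1
    exact ⟨g, h1, rfl⟩
  · rintro ⟨x, hx, hxg⟩
    rw [← key, ← hxg, key]
    exact hx

theorem altSum_quot [Finite G] [Finite Q] {p : ℕ} (hker : IsPGroup p π.ker) {O : Subgroup G}
    (hO : π.ker ≤ O) (hOn : O.Normal) {f : Subgroup G → ℤ} {f' : Subgroup Q → ℤ}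
    (hf : ConjInv f) (hf' : ConjInv f')
    (h : ∀ H : Subgroup G, π.ker ≤ H → f H = f' (H.map π)) :
    altSum p O f = altSum p (O.map π) f' := by
  have _f1 : Fintype {σ : Set (Subgroup G) // IsCh p O σ} := Fintype.ofFinite _
  have _f2 : Fintype {σ : Set (Subgroup Q) // IsCh p (O.map π) σ} := Fintype.ofFinite _
  have hOn' : (O.map π).Normal := hOn.map π hπ
  have e1 := card_mul_altSum (p := p) hOn f hf
  have e2 := card_mul_altSum (p := p) hOn' f' hf'
  have hle : ∀ {σ : Set (Subgroup G)}, IsCh p O σ → ∀ P ∈ σ, π.ker ≤ P :=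
    fun hσ P hP => hO.trans (hσ.lt P hP).le
  have hst : ∀ {σ : Set (Subgroup G)}, IsCh p O σ → π.ker ≤ chainStabilizer σ := by
    intro σ hσ
    rw [le_stab]
    intro P hP
    exact (hle hσ P hP).trans Subgroup.le_normalizer
  have hcG : Nat.card G = Nat.card π.ker * Nat.card Q := by
    have h1 := card_map' hπ (H := (⊤ : Subgroup G)) le_top
    rw [Subgroup.map_top_of_surjective π hπ] at h1
    rwa [Nat.card_congr Subgroup.topEquiv.toEquiv, Nat.card_congr Subgroup.topEquiv.toEquiv] at h1
  have key : ∑ σ : {σ : Set (Subgroup G) // IsCh p O σ},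
        (-1 : ℤ) ^ σ.1.ncard * ((Nat.card (chainStabilizer σ.1) : ℤ) * f (chainStabilizer σ.1)) =
      (Nat.card π.ker : ℤ) * ∑ σ : {σ : Set (Subgroup Q) // IsCh p (O.map π) σ},
        (-1 : ℤ) ^ σ.1.ncard *
          ((Nat.card (chainStabilizer σ.1) : ℤ) * f' (chainStabilizer σ.1)) := by
    rw [Finset.mul_sum]
    refine Finset.sum_bij (fun σ _ => ⟨(fun P : Subgroup G => P.map π) '' σ.1, ?_⟩) ?_ ?_ ?_ ?_
    · refine ⟨?_, ?_, ?_⟩
      · rintro _ ⟨P, hP, rfl⟩ _ ⟨R, hR, rfl⟩ _
        rcases σ.2.chain.total hP hR with h1 | h1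
        · exact Or.inl (Subgroup.map_mono h1)
        · exact Or.inr (Subgroup.map_mono h1)
      · rintro _ ⟨P, hP, rfl⟩
        exact (σ.2.isPGroup P hP).map _
      · rintro _ ⟨P, hP, rfl⟩
        refine lt_of_le_of_ne (Subgroup.map_mono (σ.2.lt P hP).le) fun e => ?_
        exact (σ.2.lt P hP).ne (Subgroup.map_injective_of_ker_le π hO (hle σ.2 P hP) e)
    · intro σ _
      exact Finset.mem_univ _
    · intro σ _ τ _ hστ
      have h1 : (fun P : Subgroup G => P.map π) '' σ.1 = (fun P : Subgroup G => P.map π) '' τ.1 :=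
        congrArg Subtype.val hστ
      apply Subtype.ext
      have aux : ∀ {σ τ : Set (Subgroup G)}, IsCh p O σ → IsCh p O τ →
          (fun P : Subgroup G => P.map π) '' σ = (fun P : Subgroup G => P.map π) '' τ →
          σ ⊆ τ := by
        intro σ τ hσ hτ h2 P hP
        have h3 : P.map π ∈ (fun P : Subgroup G => P.map π) '' τ := h2 ▸ ⟨P, hP, rfl⟩
        obtain ⟨R, hR, hRP⟩ := h3
        rw [← Subgroup.map_injective_of_ker_le π (hle hτ R hR) (hle hσ P hP) hRP]
        exact hR
      exact Set.Subset.antisymm (aux σ.2 τ.2 h1) (aux τ.2 σ.2 h1.symm)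
    · intro τ _
      refine ⟨⟨(fun P : Subgroup Q => P.comap π) '' τ.1, ?_, ?_, ?_⟩, Finset.mem_univ _, ?_⟩
      · rintro _ ⟨P, hP, rfl⟩ _ ⟨R, hR, rfl⟩ _
        rcases τ.2.chain.total hP hR with h1 | h1
        · exact Or.inl (Subgroup.comap_mono h1)
        · exact Or.inr (Subgroup.comap_mono h1)
      · rintro _ ⟨P, hP, rfl⟩
        exact (τ.2.isPGroup P hP).comap_of_ker_isPGroup π hker
      · rintro _ ⟨P, hP, rfl⟩
        have h1 := τ.2.lt P hP
        have h2 : O ≤ P.comap π := Subgroup.map_le_iff_le_comap.1 h1.le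
        refine lt_of_le_of_ne h2 fun e => h1.ne ?_
        rw [e]
        exact Subgroup.map_comap_eq_self_of_surjective hπ P
      · apply Subtype.ext
        change (fun P : Subgroup G => P.map π) '' ((fun P : Subgroup Q => P.comap π) '' τ.1) = τ.1
        rw [← Set.image_comp]
        have h1 : (fun P : Subgroup G => P.map π) ∘ (fun P : Subgroup Q => P.comap π) = id :=
          funext fun P => Subgroup.map_comap_eq_self_of_surjective hπ P
        rw [h1, Set.image_id]
    · intro σ _
      have h1 : ((fun P : Subgroup G => P.map π) '' σ.1).ncard = σ.1.ncard :=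
        Set.ncard_image_of_injOn fun P hP R hR hPR =>
          Subgroup.map_injective_of_ker_le π (hle σ.2 P hP) (hle σ.2 R hR) hPR
      change _ = (Nat.card π.ker : ℤ) * ((-1) ^ ((fun P : Subgroup G => P.map π) '' σ.1).ncard *
        ((Nat.card (chainStabilizer ((fun P : Subgroup G => P.map π) '' σ.1)) : ℤ) *
          f' (chainStabilizer ((fun P : Subgroup G => P.map π) '' σ.1))))
      rw [h1, stab_map hπ (hle σ.2), h _ (hst σ.2), card_map' hπ (hst σ.2)]
      push_cast
      ring
  rw [key, ← e2, hcG] at e1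
  push_cast at e1
  have h8 : (Nat.card π.ker : ℤ) * (Nat.card Q : ℤ) ≠ 0 := by
    have : 0 < Nat.card π.ker * Nat.card Q := Nat.mul_pos Nat.card_pos Nat.card_pos
    exact_mod_cast this.ne'
  refine mul_left_cancel₀ h8 ?_
  rw [e1]
  ring

end Pool.Agent.U259.DP
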