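import Pool.Agent.U259.DP.QuoA
import Pool.Agent.U259.DP.Ind
import Pool.Agent.N19.RB.Van

/-!
# Characters and blocks of quotients by central `p`-subgroups
-/

set_option autoImplicit false
set_option linter.unusedSectionVars false

open scoped Classical BigOperators

noncomputable section

namespace Pool.Agent.U259.DP

open Pool.Agent.Y63.NV (redC)
open Pool.Agent.Helper884.IC
open Pool.Agent.Q99.AS
open Pool.Agent.Y63.KR (conjSub chainStabilizer)
open Pool.Agent.N19.RB (B_surj irr_surj)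

section desc

variable {J M : Type} [Group J] [Group M] [Finite J]

/-- characters trivial on the kernel come from the quotient -/
theorem descend (ρ : J →* M) (hρ : Function.Surjective ρ) {χ : J → ℂ} (hχ : IsIrrChar χ)
    (hk : ∀ z ∈ ρ.ker, ∀ x, χ (z * x) = χ x) : ∃ ψ : M → ℂ, IsIrrChar ψ ∧ ∀ x, χ x = ψ (ρ x) := by
  have _m : Finite M := Finite.of_surjective ρ hρ
  have _f : Fintype J := Fintype.ofFinite J
  have _g : Fintype M := Fintype.ofFinite M
  have hc : ∀ x y, ρ x = ρ y → χ x = χ y := by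
    intro x y h
    have h1 : x * y⁻¹ ∈ ρ.ker := by rw [MonoidHom.mem_ker, map_mul, map_inv, h, mul_inv_cancel]
    have h2 := hk _ h1 y
    rwa [inv_mul_cancel_right] at h2
  let ψ : M → ℂ := fun y => χ (Function.surjInv hρ y)
  have hψ : ∀ x, χ x = ψ (ρ x) := fun x => hc _ _ (Function.surjInv_eq hρ _).symm
  have hcl : IsClass χ := by
    obtain ⟨U, _, _, _, τ, _, rfl⟩ := hχ
    exact isClass_char _
  refine ⟨ψ, Pool.Agent.Q90.WR.irr_of_norm ?_ ?_ ?_ ?_, hψ⟩
  · intro g y
    obtain ⟨a, rfl⟩ := hρ g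
    obtain ⟨b, rfl⟩ := hρ y
    have h3 := hcl a b
    rw [hψ, hψ] at h3
    simpa only [map_mul, map_inv] using h3
  · intro φ hφ
    have h1 : B ψ φ = B χ (fun x => φ (ρ x)) := by
      rw [← B_surj ρ hρ ψ φ]
      congr 1
      funext x
      exact (hψ x).symm
    rw [h1, B_irr hχ (irr_surj ρ hρ hφ)]
    split_ifs
    · exact ⟨1, by norm_num⟩
    · exact ⟨0, by norm_num⟩
  · have h1 : B ψ ψ = B χ χ := by
      rw [← B_surj ρ hρ ψ ψ]
      congr 1 <;>
      · funext x
        exact (hψ x).symm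
    rw [h1, B_irr hχ hχ, if_pos rfl]
  · obtain ⟨n, -, hn⟩ := Pool.Agent.Q90.WR.deg_pos hχ
    refine ⟨n, ?_⟩
    rw [← hn, hψ, map_one]

end desc

variable {G Q : Type} [Group G] [Group Q] [Finite G] {π : G →* Q} (hπ : Function.Surjective π)
  {p : ℕ} [hp : Fact p.Prime] (hker : IsPGroup p π.ker) (hc : π.ker ≤ Subgroup.center G)

include hker hc in
/-- elements of order prime to `p` in a coset of the kernel -/
theorem reg_inj {x y : G} (hx : ¬ p ∣ orderOf x) (hy : ¬ p ∣ orderOf y) (h : π x = π y) :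
    x = y := by
  have h1 : x * y⁻¹ ∈ π.ker := by rw [MonoidHom.mem_ker, map_mul, map_inv, h, mul_inv_cancel]
  obtain ⟨a, ha⟩ := hker ⟨_, h1⟩
  have ha' : (x * y⁻¹) ^ p ^ a = 1 := congrArg Subtype.val ha
  obtain ⟨k, hk, hk'⟩ : ∃ k ∈ Subgroup.center G, x = k * y := ⟨_, hc h1, by group⟩
  have hky : Commute k y := (Subgroup.mem_center_iff.1 hk y).symm
  have hkp : k ^ p ^ a = 1 := by
    have h2 : x * y⁻¹ = k := by rw [hk', mul_inv_cancel_right]
    rwa [h2] at ha'
  have h3 : k ^ (orderOf x * orderOf y) = 1 := by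
    have h4 : (k * y) ^ (orderOf x * orderOf y) = 1 := by
      rw [← hk', pow_mul, pow_orderOf_eq_one, one_pow]
    have h5 : y ^ (orderOf x * orderOf y) = 1 := by
      rw [mul_comm, pow_mul, pow_orderOf_eq_one, one_pow]
    rwa [hky.mul_pow, h5, mul_one] at h4
  have h6 : (p ^ a).Coprime (orderOf x * orderOf y) := by
    refine Nat.Coprime.pow_left a (Nat.Coprime.mul_right ?_ ?_)
    · exact (Nat.Prime.coprime_iff_not_dvd hp.out).2 hx
    · exact (Nat.Prime.coprime_iff_not_dvd hp.out).2 hy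
  have h7 : orderOf k ∣ 1 := by
    rw [← h6.gcd_eq_one]
    exact Nat.dvd_gcd (orderOf_dvd_of_pow_eq_one hkp) (orderOf_dvd_of_pow_eq_one h3)
  have h8 : k = 1 := orderOf_eq_one_iff.1 (Nat.dvd_one.1 h7)
  rw [hk', h8, one_mul]

include hπ in
/-- elements of order prime to `p` of the quotient -/
theorem reg_lift {y : Q} (hy : ¬ p ∣ orderOf y) : ∃ x : G, π x = y ∧ ¬ p ∣ orderOf x := by
  obtain ⟨x, rfl⟩ := hπ y
  have hne : Nat.card G ≠ 0 := Nat.card_pos.ne'
  have hx : x ^ Nat.card G = 1 := pow_card_eq_one'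
  obtain ⟨u, v, e1, e2, e3⟩ := parts hp.out hne hx
  refine ⟨x ^ v, ?_, reg_of_pow hp.out hne e3⟩
  have h1 : (π x ^ u) ^ p ^ (Nat.card G).factorization p = 1 := by
    rw [← map_pow, ← map_pow, e2, map_one]
  have h2 : (π x ^ u) ^ orderOf (π x) = 1 := by
    rw [← pow_mul, mul_comm, pow_mul, pow_orderOf_eq_one, one_pow]
  have h3 : (p ^ (Nat.card G).factorization p).Coprime (orderOf (π x)) :=
    Nat.Coprime.pow_left _ ((Nat.Prime.coprime_iff_not_dvd hp.out).2 hy)
  have h4 : orderOf (π x ^ u) ∣ 1 := by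
    rw [← h3.gcd_eq_one]
    exact Nat.dvd_gcd (orderOf_dvd_of_pow_eq_one h1) (orderOf_dvd_of_pow_eq_one h2)
  have h5 : π x ^ u = 1 := orderOf_eq_one_iff.1 (Nat.dvd_one.1 h4)
  have h6 : π x = π x ^ u * π x ^ v := by
    rw [← map_pow, ← map_pow, ← map_mul, ← e1]
  rw [map_pow]
  rw [h5, one_mul] at h6
  exact h6.symm

omit [Finite G] in
theorem reg_map {x : G} (hx : ¬ p ∣ orderOf x) : ¬ p ∣ orderOf (π x) := fun h =>
  hx (h.trans (orderOf_map_dvd π x))

theorem orderOf_conj {x y : G} (h : IsConj x y) : orderOf x = orderOf y := by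
  obtain ⟨c, rfl⟩ := isConj_iff.1 h
  exact (orderOf_injective (MulAut.conj c).toMonoidHom (MulAut.conj c).injective x).symm

variable {F : Type} [Field F] (red : integralClosure ℤ ℂ →+* F)

include hπ hker hc in
/-- the central characters of inflated characters at `p`-regular classes -/
theorem lam_inf {H : Subgroup G} (hH : π.ker ≤ H) (ψ : H.map π → ℂ) {g : G}
    (hg : ¬ p ∣ orderOf g) :
    lam red H.subtype (fun x => ψ (π.subgroupMap H x)) g = lam red (H.map π).subtype ψ (π g) := by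
  unfold lam
  have h1 : (fun x => ψ (π.subgroupMap H x)) 1 = ψ 1 := by
    simp only [map_one]
  rw [h1]
  congr 2
  refine finsum_eq_of_bijective (fun x => ⟨π.subgroupMap H x.1, ?_⟩) ?_ (fun x => rfl)
  · obtain ⟨c, hc'⟩ := isConj_iff.1 x.2
    refine isConj_iff.2 ⟨π c, ?_⟩
    change _ = π x.1
    have hx : (x.1 : G) = c * g * c⁻¹ := hc'.symm
    rw [hx, map_mul, map_mul, map_inv]
  · constructor
    · rintro ⟨x, hx⟩ ⟨y, hy⟩ hxy
      have h2 : π (x : G) = π (y : G) := congrArg (fun t => ((t.1 : H.map π) : Q)) hxy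
      have hx' : IsConj g (x : G) := hx
      have hy' : IsConj g (y : G) := hy
      have h3 : (x : G) = y := by
        refine reg_inj hker hc (p := p) ?_ ?_ h2
        · rw [← orderOf_conj hx']
          exact hg
        · rw [← orderOf_conj hy']
          exact hg
      exact Subtype.ext (Subtype.ext h3)
    · rintro ⟨⟨_, x, hx, rfl⟩, hy⟩
      obtain ⟨c, hc'⟩ := isConj_iff.1 hy
      obtain ⟨c, rfl⟩ := hπ c
      have h4 : π (c * g * c⁻¹) = π x := by
        rw [map_mul, map_mul, map_inv]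
        exact hc'
      have h5 : c * g * c⁻¹ ∈ H := by
        have h6 : c * g * c⁻¹ * x⁻¹ ∈ H := hH (by
          rw [MonoidHom.mem_ker, map_mul, map_inv, h4, mul_inv_cancel])
        have h7 := H.mul_mem h6 hx
        rwa [inv_mul_cancel_right] at h7
      exact ⟨⟨⟨c * g * c⁻¹, h5⟩, isConj_iff.2 ⟨c, rfl⟩⟩, Subtype.ext (Subtype.ext h4)⟩

end Pool.Agent.U259.DP
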