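import Pool.Agent.U259.DP.QuoB

/-!
# The alternating sums of quotients by central `p`-subgroups
-/

set_option autoImplicit false
set_option linter.unusedSectionVars false

open scoped Classical BigOperators

noncomputable section

namespace Pool.Agent.U259.DP

open Pool.Agent.Y63.NV (redC)
open Pool.Agent.Helper884.IC
open Pool.Agent.Q99.AS
open Pool.Agent.Y63.KR (conjSub chainStabilizer)
open Pool.Agent.N19.RB (B_surj irr_surj)

variable {F : Type} [Field F] (red : integralClosure ℤ ℂ →+* F)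

section conj

variable {G : Type} [Group G]

theorem nm_conj {p : ℕ} (χ : G → ℂ) (d : ℕ) {A : ∀ H : Subgroup G, (H → ℂ) → Prop}
    (hA : ∀ (g : G) (H : Subgroup G) (ϑ : conjSub g H → ℂ),
      A H (fun x => ϑ (cj g H x)) ↔ A (conjSub g H) ϑ) : ConjInv (nm p red χ d A) := by
  intro g H
  unfold nm
  rw [Pool.Agent.Q90.WR.card_transport (cj g H)]
  congr 1
  refine Nat.card_congr (Equiv.subtypeEquivRight fun ϑ => and_congr_right fun _ =>
    and_congr ?_ (and_congr (Dft_congr (cj g H) ϑ).symm (hA g H ϑ).symm))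
  unfold Ind
  refine forall_congr' fun y => ?_
  rw [lam_congr red (cj g H) H.subtype (conjSub g H).subtype]
  intro x
  exact isConj_iff.2 ⟨g, rfl⟩

theorem inKer_conj {K : Subgroup G} (hK : K ≤ Subgroup.center G) (g : G) (H : Subgroup G)
    (ϑ : conjSub g H → ℂ) :
    InKer K (fun x => ϑ (cj g H x)) ↔ InKer K ϑ := by
  have hc : ∀ z ∈ K, g * z * g⁻¹ = z := by
    intro z hz
    rw [Subgroup.mem_center_iff.1 (hK hz) g, mul_inv_cancel_right]
  constructor
  · intro h z hz hH
    have hH' : z ∈ H := by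
      obtain ⟨y, hy, e⟩ := Subgroup.mem_map.1 hH
      have e' : g * y * g⁻¹ = z := e
      have h2 : y = z := by
        have h1 : y = g⁻¹ * z * g := by
          rw [← e']
          group
        have h2 : g⁻¹ * z * g = z := by
          rw [mul_assoc, ← Subgroup.mem_center_iff.1 (hK hz) g, inv_mul_cancel_left]
        rw [h1, h2]
      rwa [← h2]
    have h1 := h z hz hH'
    have h2 : cj g H ⟨z, hH'⟩ = ⟨z, hH⟩ := Subtype.ext (hc z hz)
    simp only [h2, map_one] at h1
    exact h1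
  · intro h z hz hH
    have hH' : z ∈ conjSub g H := Subgroup.mem_map.2 ⟨z, hH, hc z hz⟩
    have h2 : cj g H ⟨z, hH⟩ = ⟨z, hH'⟩ := Subtype.ext (hc z hz)
    simp only [h2, map_one]
    exact h z hz hH'

end conj

variable {G Q : Type} [Group G] [Group Q] [Finite G] {π : G →* Q} (hπ : Function.Surjective π)
  {p : ℕ} [hp : Fact p.Prime] (hker : IsPGroup p π.ker) (hc : π.ker ≤ Subgroup.center G)

include hπ

theorem dft_inf {k : ℕ} (hk : Nat.card π.ker = p ^ k) {H : Subgroup G} (hH : π.ker ≤ H)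
    {d : ℕ} {ψ : H.map π → ℂ} :
    Dft p (k + d) (fun x => ψ (π.subgroupMap H x)) ↔ Dft p d ψ := by
  have h1 := card_map' hπ hH
  have h2 : (Nat.card H).factorization p = k + (Nat.card (H.map π)).factorization p := by
    have _q : Finite Q := Finite.of_surjective π hπ
    rw [h1, hk, Nat.factorization_mul (pow_ne_zero k hp.out.ne_zero) Nat.card_pos.ne',
      Nat.factorization_pow, Finsupp.add_apply, Finsupp.smul_apply, hp.out.factorization_self,
      smul_eq_mul, mul_one]
  unfold Dft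
  simp only [map_one]
  refine exists_congr fun n => and_congr_right fun _ => ?_
  rw [h2]
  omega

include hker hc

theorem ind_inf {H : Subgroup G} (hH : π.ker ≤ H) {χ : G → ℂ} {χ' : Q → ℂ}
    (hχ : ∀ g : G, ¬ p ∣ orderOf g →
      lam red (MonoidHom.id Q) χ' (π g) = lam red (MonoidHom.id G) χ g) {ψ : H.map π → ℂ} :
    Ind p red χ (fun x => ψ (π.subgroupMap H x)) ↔ Ind p red χ' ψ := by
  constructor
  · intro h y hy
    obtain ⟨g, rfl, hg⟩ := reg_lift hπ hy
    rw [← lam_inf hπ hker hc red hH ψ hg, hχ g hg]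
    exact h g hg
  · intro h g hg
    rw [lam_inf hπ hker hc red hH ψ hg, ← hχ g hg]
    exact h _ (reg_map hg)

theorem nm_quot {k : ℕ} (hk : Nat.card π.ker = p ^ k) {H : Subgroup G} (hH : π.ker ≤ H)
    {χ : G → ℂ} {χ' : Q → ℂ} (hχ : ∀ g : G, ¬ p ∣ orderOf g →
      lam red (MonoidHom.id Q) χ' (π g) = lam red (MonoidHom.id G) χ g) (d : ℕ) :
    nm p red χ (k + d) (fun _ ϑ => InKer π.ker ϑ) H =
      nm p red χ' d (fun _ _ => True) (H.map π) := by
  have _q : Finite Q := Finite.of_surjective π hπ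
  have hs : Function.Surjective (π.subgroupMap H) := π.subgroupMap_surjective H
  unfold nm
  congr 1
  symm
  have _f1 : Fintype H := Fintype.ofFinite H
  have _f2 : Fintype (H.map π) := Fintype.ofFinite _
  refine Nat.card_eq_of_bijective (fun ψ => ⟨fun x => ψ.1 (π.subgroupMap H x),
    irr_surj _ hs ψ.2.1, (ind_inf red hπ hker hc hH hχ).2 ψ.2.2.1,
    (dft_inf hπ hk hH).2 ψ.2.2.2.1, ?_⟩) ⟨?_, ?_⟩
  · intro z hz hzH
    have h1 : π.subgroupMap H ⟨z, hzH⟩ = 1 := Subtype.ext (MonoidHom.mem_ker.1 hz)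
    simp only [h1, map_one]
  · rintro ⟨ψ, h⟩ ⟨φ, h'⟩ e
    apply Subtype.ext
    funext y
    obtain ⟨x, rfl⟩ := hs y
    exact congrFun (congrArg Subtype.val e) x
  · rintro ⟨ϑ, h1, h2, h3, h4⟩
    obtain ⟨ψ, hψ, hψϑ⟩ := descend (π.subgroupMap H) hs h1 (fun z hz x => by
      have hz' : (z : G) ∈ π.ker := by
        rw [MonoidHom.mem_ker] at hz ⊢
        exact congrArg Subtype.val hz
      have h5 := central h1 (z := z) (fun x => Subtype.ext
        (Subgroup.mem_center_iff.1 (hc hz') x.1)) x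
      have h6 : ϑ z = ϑ 1 := h4 z.1 hz' z.2
      rw [h6, mul_comm] at h5
      exact mul_left_cancel₀ (irr_one_ne' h1) h5)
    have e : ϑ = fun x => ψ (π.subgroupMap H x) := funext hψϑ
    subst e
    exact ⟨⟨ψ, hψ, (ind_inf red hπ hker hc hH hχ).1 h2, (dft_inf hπ hk hH).1 h3, trivial⟩, rfl⟩

omit hker in
theorem nm_small {k : ℕ} (hk : Nat.card π.ker = p ^ k) {H : Subgroup G} (hH : π.ker ≤ H)
    {χ : G → ℂ} {d : ℕ} (hd : d < k) : nm p red χ d (fun _ ϑ => InKer π.ker ϑ) H = 0 := by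
  have _q : Finite Q := Finite.of_surjective π hπ
  have hs : Function.Surjective (π.subgroupMap H) := π.subgroupMap_surjective H
  unfold nm
  rw [Nat.cast_eq_zero, Nat.card_eq_zero]
  left
  constructor
  rintro ⟨ϑ, h1, -, h3, h4⟩
  obtain ⟨ψ, hψ, hψϑ⟩ := descend (π.subgroupMap H) hs h1 (fun z hz x => by
    have hz' : (z : G) ∈ π.ker := by
      rw [MonoidHom.mem_ker] at hz ⊢
      exact congrArg Subtype.val hz
    have h5 := central h1 (z := z) (fun x => Subtype.ext
      (Subgroup.mem_center_iff.1 (hc hz') x.1)) x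
    have h6 : ϑ z = ϑ 1 := h4 z.1 hz' z.2
    rw [h6, mul_comm] at h5
    exact mul_left_cancel₀ (irr_one_ne' h1) h5)
  have e : ϑ = fun x => ψ (π.subgroupMap H x) := funext hψϑ
  subst e
  obtain ⟨d', hd'⟩ := Dft_exists p hψ
  have h5 := Dft_unique h3 ((dft_inf hπ hk hH).2 hd')
  omega

/-- **The sums of the quotient** -/
theorem asum_quot {k : ℕ} (hk : Nat.card π.ker = p ^ k) {O : Subgroup G} (hO : π.ker ≤ O)
    (hOn : O.Normal) {χ : G → ℂ} {χ' : Q → ℂ} (hχ : ∀ g : G, ¬ p ∣ orderOf g →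
      lam red (MonoidHom.id Q) χ' (π g) = lam red (MonoidHom.id G) χ g) (d : ℕ) :
    asum p red O χ (k + d) (fun _ ϑ => InKer π.ker ϑ) =
      asum p red (O.map π) χ' d (fun _ _ => True) := by
  have _q : Finite Q := Finite.of_surjective π hπ
  unfold asum
  exact altSum_quot hπ hker hO hOn (nm_conj red _ _ (inKer_conj hc))
    (nm_conj red _ _ fun _ _ _ => Iff.rfl) fun H hH => nm_quot red hπ hker hc hk hH hχ d

omit hker in
theorem asum_small {k : ℕ} (hk : Nat.card π.ker = p ^ k) {O : Subgroup G} 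
    {χ : G → ℂ} {d : ℕ} (hd : d < k) :
    asum p red O χ d (fun _ ϑ => InKer π.ker ϑ) = 0 := by
  unfold asum
  have h1 : altSum p O (nm p red χ d fun _ ϑ => InKer π.ker ϑ) = altSum p O fun _ => 0 :=
    altSum_congr fun σ _ => nm_small red hπ hc hk (hc.trans center_le_stab) hd
  rw [h1]
  exact altSum_zero fun _ => rfl

end Pool.Agent.U259.DP
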