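import Pool.Agent.U259.DP.Cnt

/-!
# Characters of a central subgroup with the same kernel
-/

set_option autoImplicit false
set_option linter.unusedSectionVars false

open scoped Classical BigOperators

noncomputable section

namespace Pool.Agent.U259.DP

open Pool.Agent.Y63.NV (redC)
open Pool.Agent.Helper884.IC
open Pool.Agent.Q99.AS
open Pool.Agent.Y63.KR (conjSub chainStabilizer)

/-- two characters of `A` with the same kernel and cyclic image -/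
theorem pow_of_ker {A : Type} [Group A] [Finite A] {p : ℕ} [hp : Fact p.Prime] (hA : IsPGroup p A)
    {μ μ' : A → ℂ} (h1 : μ 1 = 1) (hm : ∀ a b, μ (a * b) = μ a * μ b) (h1' : μ' 1 = 1)
    (hm' : ∀ a b, μ' (a * b) = μ' a * μ' b) (hk : ∀ a, μ a = 1 ↔ μ' a = 1) :
    ∃ k : ℕ, k.Coprime p ∧ ∀ a, μ' a = μ a ^ k := by
  have hu : ∀ (ν : A → ℂ), ν 1 = 1 → (∀ a b, ν (a * b) = ν a * ν b) →
      ∃ l : A →* ℂˣ, ∀ a, ((l a : ℂˣ) : ℂ) = ν a := by
    intro ν g1 gm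
    refine ⟨MonoidHom.toHomUnits ⟨⟨ν, g1⟩, gm⟩, fun a => rfl⟩
  obtain ⟨l, hl⟩ := hu μ h1 hm
  obtain ⟨l', hl'⟩ := hu μ' h1' hm'
  have hfin : Finite l.range := Finite.of_surjective l.rangeRestrict l.rangeRestrict_surjective
  have hcyc : IsCyclic l.range := inferInstance
  obtain ⟨⟨_, z, rfl⟩, hz⟩ := hcyc.exists_generator
  have hker : ∀ a, l a = 1 ↔ l' a = 1 := by
    intro a
    rw [← Units.val_inj, ← Units.val_inj, hl, hl', Units.val_one]
    exact hk a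
  -- powers of the generator
  have hgen : ∀ a, ∃ j : ℕ, l a = l z ^ j ∧ l' a = l' z ^ j := by
    intro a
    obtain ⟨j, hj⟩ := (mem_powers_iff_mem_zpowers.2 (hz ⟨l a, a, rfl⟩))
    have hj' : l z ^ j = l a := congrArg Subtype.val hj
    refine ⟨j, hj'.symm, ?_⟩
    have h2 : l (a * (z ^ j)⁻¹) = 1 := by
      rw [map_mul, map_inv, map_pow, hj', mul_inv_cancel]
    rw [hker, map_mul, map_inv, map_pow, mul_inv_eq_one] at h2
    exact h2
  have hord : orderOf (l' z) = orderOf (l z) := by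
    apply Nat.dvd_antisymm
    · rw [orderOf_dvd_iff_pow_eq_one, ← map_pow, ← hker, map_pow, pow_orderOf_eq_one]
    · rw [orderOf_dvd_iff_pow_eq_one, ← map_pow, hker, map_pow, pow_orderOf_eq_one]
  have hpos : 0 < orderOf (l z) := by
    rw [orderOf_pos_iff]
    exact (l : A →* ℂˣ).isOfFinOrder (isOfFinOrder_of_finite z)
  have hprim : IsPrimitiveRoot (l z) (orderOf (l z)) := IsPrimitiveRoot.orderOf (l z)
  have hprim' : IsPrimitiveRoot (l' z) (orderOf (l z)) := by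
    rw [← hord]
    exact IsPrimitiveRoot.orderOf (l' z)
  have hprimC : IsPrimitiveRoot ((l z : ℂˣ) : ℂ) (orderOf (l z)) :=
    IsPrimitiveRoot.coe_units_iff.2 hprim
  have hprimC' : IsPrimitiveRoot ((l' z : ℂˣ) : ℂ) (orderOf (l z)) :=
    IsPrimitiveRoot.coe_units_iff.2 hprim'
  obtain ⟨c, hc⟩ : ∃ c : ℕ, orderOf (l z) = p ^ c := by
    obtain ⟨c, hc⟩ := hA z
    have h3 : orderOf (l z) ∣ p ^ c := by
      rw [orderOf_dvd_iff_pow_eq_one, ← map_pow, hc, map_one]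
    obtain ⟨e, -, he⟩ := (Nat.dvd_prime_pow hp.out).1 h3
    exact ⟨e, he⟩
  obtain ⟨k, hkc, hkz⟩ : ∃ k : ℕ, k.Coprime p ∧ ((l' z : ℂˣ) : ℂ) = ((l z : ℂˣ) : ℂ) ^ k := by
    by_cases hc0 : c = 0
    · refine ⟨1, Nat.coprime_one_left p, ?_⟩
      rw [hc0, pow_zero] at hc
      have h4 : l z = 1 := orderOf_eq_one_iff.1 hc
      rw [pow_one, h4, (hker z).1 h4]
    · have _n : NeZero (orderOf (l z)) := ⟨hpos.ne'⟩
      obtain ⟨i, -, h5, hi2⟩ := hprimC.isPrimitiveRoot_iff.1 hprimC'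
      refine ⟨i, ?_, hi2.symm⟩
      rw [hc] at h5
      exact Nat.Coprime.coprime_dvd_right (dvd_pow_self p hc0) h5
  refine ⟨k, hkc, fun a => ?_⟩
  obtain ⟨j, hj, hj'⟩ := hgen a
  rw [← hl' a, ← hl a, hj, hj', Units.val_pow_eq_pow_val, Units.val_pow_eq_pow_val, hkz]
  rw [← pow_mul, ← pow_mul, mul_comm]

variable {G : Type} [Group G] {F : Type} [Field F] (red : integralClosure ℤ ℂ →+* F)

/-- the `p`-part and the `p'`-part of an element of finite order -/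
theorem parts {p n : ℕ} (hp : p.Prime) (hn : n ≠ 0) {z : G} (hz : z ^ n = 1) :
    ∃ u v : ℕ, z = z ^ u * z ^ v ∧ (z ^ u) ^ p ^ n.factorization p = 1 ∧
      (z ^ v) ^ (n / p ^ n.factorization p) = 1 := by
  have hcop : (p ^ n.factorization p).Coprime (n / p ^ n.factorization p) :=
    (Nat.coprime_ordCompl hp hn).pow_left _
  have hmul : p ^ n.factorization p * (n / p ^ n.factorization p) = n :=
    Nat.ordProj_mul_ordCompl_eq_self n p
  obtain ⟨u, u1, u2⟩ := Nat.chineseRemainder hcop 1 0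
  obtain ⟨v, v1, v2⟩ := Nat.chineseRemainder hcop 0 1
  have e : u + v ≡ 1 [MOD n] := by
    rw [← hmul, ← Nat.modEq_and_modEq_iff_modEq_mul hcop]
    exact ⟨by simpa using u1.add v1, by simpa using u2.add v2⟩
  obtain ⟨c, hc⟩ := Nat.modEq_zero_iff_dvd.mp u2
  obtain ⟨d, hd⟩ := Nat.modEq_zero_iff_dvd.mp v1
  refine ⟨u, v, ?_, ?_, ?_⟩
  · rw [← pow_add]
    have h1 : z ^ (u + v) = z ^ 1 := by
      rw [pow_eq_pow_iff_modEq]
      exact e.of_dvd (orderOf_dvd_of_pow_eq_one hz)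
    rw [h1, pow_one]
  · rw [← pow_mul, hc, mul_right_comm, mul_comm (n / p ^ n.factorization p), hmul, pow_mul, hz,
      one_pow]
  · rw [← pow_mul, hd, mul_right_comm, hmul, pow_mul, hz, one_pow]

theorem reg_of_pow {p n : ℕ} (hp : p.Prime) (hn : n ≠ 0) {z : G}
    (hz : z ^ (n / p ^ n.factorization p) = 1) : ¬ p ∣ orderOf z := fun h =>
  Nat.not_dvd_ordCompl hp hn (h.trans (orderOf_dvd_of_pow_eq_one hz))

/-- `O` is the Sylow `p`-subgroup of `Z` -/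
def IsSyl (p : ℕ) (O Z : Subgroup G) : Prop :=
  O ≤ Z ∧ IsPGroup p O ∧ ∀ P : Subgroup G, P ≤ Z → IsPGroup p P → P ≤ O

theorem mem_syl {p : ℕ} {O Z : Subgroup G} (h : IsSyl p O Z) {z : G} (hz : z ∈ Z) {a : ℕ}
    (hza : z ^ p ^ a = 1) : z ∈ O := by
  refine h.2.2 (Subgroup.zpowers z) (Subgroup.zpowers_le.2 hz) ?_ (Subgroup.mem_zpowers z)
  rintro ⟨_, i, rfl⟩
  refine ⟨a, Subtype.ext ?_⟩
  change (z ^ i) ^ p ^ a = 1
  rw [← zpow_natCast, ← zpow_mul, mul_comm, zpow_mul, zpow_natCast, hza, one_zpow]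

/-- **conjugate characters** -/
theorem exists_sigma [Finite G] {p : ℕ} [hp : Fact p.Prime] {O Z : Subgroup G}
    (hZ : Z ≤ Subgroup.center G) (hO : IsSyl p O Z) {μ μ' : Z → ℂ} (hμ : IsIrrChar μ)
    (hμ' : IsIrrChar μ') (hr : ∀ z : Z, ¬ p ∣ orderOf (z : G) → μ z = μ' z)
    (hk : ∀ z : Z, (z : G) ∈ O → (μ z = 1 ↔ μ' z = 1)) :
    ∃ σ : ℂ ≃+* ℂ, Fixes p (Nat.card G) σ ∧ ∀ z, μ' z = σ (μ z) := by
  obtain ⟨a1, am⟩ := lin_of hZ hμ
  obtain ⟨b1, bm⟩ := lin_of hZ hμ'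
  let i : O → Z := fun x => ⟨x.1, hO.1 x.2⟩
  obtain ⟨k, hkp, hkk⟩ := pow_of_ker (A := O) hO.2.1 (μ := fun x => μ (i x))
    (μ' := fun x => μ' (i x)) a1 (fun a b => am (i a) (i b)) b1 (fun a b => bm (i a) (i b))
    (fun a => hk (i a) a.2)
  have hne : Nat.card G ≠ 0 := Nat.card_pos.ne'
  have hm : Nat.card G / p ^ (Nat.card G).factorization p ≠ 0 := by
    have := Nat.ordCompl_pos p hne
    omega
  have hcop : (p ^ (Nat.card G).factorization p).Coprime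
      (Nat.card G / p ^ (Nat.card G).factorization p) :=
    (Nat.coprime_ordCompl hp.out hne).pow_left _
  obtain ⟨σ, h1, h2⟩ := Pool.Agent.N19.RB.exists_two (s := k) (u := 1)
    (pow_ne_zero ((Nat.card G).factorization p) hp.out.ne_zero) hm hcop
    (Nat.Coprime.pow_right _ hkp) (Nat.coprime_one_left _)
  have mpow : ∀ {ν : Z → ℂ}, ν 1 = 1 → (∀ a b, ν (a * b) = ν a * ν b) → ∀ (x : Z) (n : ℕ),
      ν (x ^ n) = ν x ^ n := by
    intro ν g1 gm x n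
    induction n with
    | zero => rw [pow_zero, pow_zero, g1]
    | succ n ih => rw [pow_succ, pow_succ, gm, ih]
  refine ⟨σ, ⟨hne, fun z hz => by rw [h2 z hz, pow_one]⟩, fun z => ?_⟩
  have hz : (z : G) ^ Nat.card G = 1 := pow_card_eq_one'
  obtain ⟨u, v, e1, e2, e3⟩ := parts hp.out hne hz
  have f1 : z = z ^ u * z ^ v := Subtype.ext e1
  have f2 : (z ^ u) ^ p ^ (Nat.card G).factorization p = 1 := Subtype.ext e2
  have f3 : (z ^ v) ^ (Nat.card G / p ^ (Nat.card G).factorization p) = 1 := Subtype.ext e3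
  have g2 : (μ (z ^ u)) ^ p ^ (Nat.card G).factorization p = 1 := by
    rw [← mpow a1 am, f2, a1]
  have g3 : (μ (z ^ v)) ^ (Nat.card G / p ^ (Nat.card G).factorization p) = 1 := by
    rw [← mpow a1 am, f3, a1]
  have hO' : ((z ^ u : Z) : G) ∈ O := mem_syl hO (z ^ u).2 e2
  have k1 : μ' (z ^ u) = μ (z ^ u) ^ k := hkk ⟨_, hO'⟩
  have k2 : μ (z ^ v) = μ' (z ^ v) := hr _ (reg_of_pow hp.out hne e3)
  rw [f1, am, bm, map_mul, h1 _ g2, h2 _ g3, pow_one, k1, k2]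

/-- **The sums only depend on the kernel** -/
theorem asum_eq [Finite G] {p : ℕ} [hp : Fact p.Prime] [CharP F p] {O Z : Subgroup G}
    (hZ : Z ≤ Subgroup.center G) (hO : IsSyl p O Z) {μ μ' : Z → ℂ} (hμ : IsIrrChar μ)
    (hμ' : IsIrrChar μ') (hr : ∀ z : Z, ¬ p ∣ orderOf (z : G) → μ z = μ' z)
    (hk : ∀ z : Z, (z : G) ∈ O → (μ z = 1 ↔ μ' z = 1)) (O' : Subgroup G) (χ : G → ℂ) (d : ℕ) :
    asum p red O' χ d (fun _ ϑ => Over μ ϑ) = asum p red O' χ d (fun _ ϑ => Over μ' ϑ) := by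
  obtain ⟨σ, hσ, hs⟩ := exists_sigma hZ hO hμ hμ' hr hk
  unfold asum
  congr 1
  funext H
  unfold nm
  congr 1
  refine Nat.card_congr
    { toFun := fun ϑ => ⟨fun x => σ (ϑ.1 x), (irr_sigma σ).2 ϑ.2.1, ?_, dft_sigma.2 ϑ.2.2.2.1, ?_⟩
      invFun := fun ϑ => ⟨fun x => σ.symm (ϑ.1 x), (irr_sigma σ.symm).2 ϑ.2.1, ?_,
        dft_sigma.2 ϑ.2.2.2.1, ?_⟩
      left_inv := fun ϑ => by simp
      right_inv := fun ϑ => by simp }
  · intro g hg
    rw [lam_sigma red (Subgroup.card_subgroup_dvd_card H) hσ ϑ.2.1]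
    exact ϑ.2.2.1 g hg
  · intro z hz hH
    change σ (ϑ.1 ⟨z, hH⟩) = σ (ϑ.1 1) * μ' ⟨z, hz⟩
    rw [hs, ϑ.2.2.2.2 z hz hH, map_mul]
  · intro g hg
    rw [lam_sigma red (Subgroup.card_subgroup_dvd_card H) (fixes_symm hσ) ϑ.2.1]
    exact ϑ.2.2.1 g hg
  · intro z hz hH
    change σ.symm (ϑ.1 ⟨z, hH⟩) = σ.symm (ϑ.1 1) * μ ⟨z, hz⟩
    rw [ϑ.2.2.2.2 z hz hH, map_mul, hs, RingEquiv.symm_apply_apply]

end Pool.Agent.U259.DP
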