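import Pool.Agent.U259.DP.Prd

/-!
# Central squares
-/

set_option autoImplicit false
set_option linter.unusedSectionVars false

open scoped Classical BigOperators

noncomputable section

namespace Pool.Agent.U259.DP

open Pool.Agent.Y63.NV (redC)
open Pool.Agent.Helper884.IC
open Pool.Agent.Q99.AS
open Pool.Agent.Y63.KR (conjSub chainStabilizer)

variable {G : Type} [Group G] {O : Subgroup G}

/-- the elements `(z, z⁻¹)`, `z ∈ O` -/
def adg (hO : O ≤ Subgroup.center G) : Subgroup (G × G) where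
  carrier := {x | x.1 ∈ O ∧ x.2 = x.1⁻¹}
  one_mem' := ⟨O.one_mem, by simp⟩
  mul_mem' := by
    rintro ⟨a, b⟩ ⟨c, d⟩ ⟨h1, h2⟩ ⟨h3, h4⟩
    refine ⟨O.mul_mem h1 h3, ?_⟩
    change b = a⁻¹ at h2
    change d = c⁻¹ at h4
    change b * d = (a * c)⁻¹
    rw [h2, h4, mul_inv_rev]
    exact (Subgroup.mem_center_iff.1 (hO (O.inv_mem h3)) a⁻¹)
  inv_mem' := by
    rintro ⟨a, b⟩ ⟨h1, h2⟩
    refine ⟨O.inv_mem h1, ?_⟩
    change b = a⁻¹ at h2
    change b⁻¹ = a⁻¹⁻¹
    rw [h2]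

variable (hO : O ≤ Subgroup.center G)
include hO

theorem adg_le : adg hO ≤ O.prod O := by
  rintro ⟨a, b⟩ ⟨h1, h2⟩
  change b = a⁻¹ at h2
  exact ⟨h1, by rw [h2]; exact O.inv_mem h1⟩

theorem adg_center : adg hO ≤ Subgroup.center (G × G) := (adg_le hO).trans (center_prod hO hO)

theorem adg_normal : (adg hO).Normal := ⟨fun x hx g => by
  rw [Subgroup.mem_center_iff.1 (adg_center hO hx) g, mul_inv_cancel_right]
  exact hx⟩

theorem adg_card : Nat.card (adg hO) = Nat.card O := by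
  refine Nat.card_congr
    { toFun := fun x => ⟨x.1.1, x.2.1⟩
      invFun := fun z => ⟨(z.1, z.1⁻¹), z.2, rfl⟩
      left_inv := ?_
      right_inv := fun z => rfl }
  rintro ⟨⟨a, b⟩, h1, h2⟩
  change b = a⁻¹ at h2
  apply Subtype.ext
  change (a, a⁻¹) = (a, b)
  rw [h2]

variable [Finite G]

theorem adg_p {p : ℕ} [Fact p.Prime] (h : IsPGroup p O) : IsPGroup p (adg hO) :=
  (isPGroup_prod h h).to_le (adg_le hO)

omit hO in
theorem tZ_irr [Fintype O] {μ : O → ℂ} (h : IsIrrChar μ) : IsIrrChar (tZ μ μ) := by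
  have := Fintype.ofFinite G
  exact Pool.Agent.Q90.WR.irr_comp (Subgroup.prodEquiv O O) (ten_irr h h)

theorem tZ_tr {μ : O → ℂ} (h : IsIrrChar μ) : Tr (adg hO) (tZ μ μ) := by
  obtain ⟨a1, am⟩ := lin_of hO h
  rintro ⟨⟨a, b⟩, hab⟩ ⟨h1, h2⟩
  change b = a⁻¹ at h2
  subst h2
  change μ ⟨a, hab.1⟩ * μ ⟨a⁻¹, hab.2⟩ = 1
  rw [← am]
  have e : (⟨a, hab.1⟩ * ⟨a⁻¹, hab.2⟩ : O) = 1 := Subtype.ext (mul_inv_cancel a)
  rw [e, a1]

/-- the characters of `O × O` with `(z, z⁻¹)` in the kernel -/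
theorem sum_tr [Fintype O] [Fintype (O.prod O)] (f : (O.prod O → ℂ) → ℤ) :
    ∑ μ ∈ (Irr (O.prod O)).filter (Tr (adg hO)), f μ = ∑ μ ∈ Irr O, f (tZ μ μ) := by
  symm
  refine Finset.sum_bij (fun μ _ => tZ μ μ) ?_ ?_ ?_ (fun _ _ => rfl)
  · intro μ hμ
    rw [mem_Irr] at hμ
    rw [Finset.mem_filter, mem_Irr]
    refine ⟨?_, tZ_tr hO hμ⟩
    exact tZ_irr hμ
  · intro μ hμ μ' hμ' e
    rw [mem_Irr] at hμ hμ'
    obtain ⟨a1, -⟩ := lin_of hO hμ
    obtain ⟨b1, -⟩ := lin_of hO hμ'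
    funext z
    have h1 := congrFun e ⟨(z.1, 1), z.2, O.one_mem⟩
    have h2 : μ z * μ 1 = μ' z * μ' 1 := h1
    rwa [a1, b1, mul_one, mul_one] at h2
  · intro ν hν
    rw [Finset.mem_filter, mem_Irr] at hν
    obtain ⟨h1, h2⟩ := hν
    obtain ⟨a1, am⟩ := lin_of (center_prod hO hO) h1
    let l : O → ℂ := fun z => ν ⟨(z.1, 1), z.2, O.one_mem⟩
    have l1 : l 1 = 1 := a1
    have lm : ∀ a b, l (a * b) = l a * l b := by
      intro a b
      change _ = ν _ * ν _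
      rw [← am]
      change ν _ = ν _
      congr 1
      apply Subtype.ext
      change ((a : G) * (b : G), (1 : G)) = ((a : G) * (b : G), (1 : G) * 1)
      rw [one_mul]
    refine ⟨l, ?_, ?_⟩
    · rw [mem_Irr]
      exact Pool.Agent.N19.RB.irr_lin l1 lm
    · funext x
      obtain ⟨⟨a, b⟩, ha, hb⟩ := x
      change ν ⟨(a, 1), ha, O.one_mem⟩ * ν ⟨(b, 1), hb, O.one_mem⟩ = _
      rw [← am]
      have h3 := h2 ⟨(b⁻¹, b), O.inv_mem hb, hb⟩ ⟨O.inv_mem hb, (inv_inv b).symm⟩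
      have h4 : (⟨(a, 1), ha, O.one_mem⟩ * ⟨(b, 1), hb, O.one_mem⟩ : O.prod O) =
          ⟨(a * b, 1), O.mul_mem ha hb, O.one_mem⟩ := by
        apply Subtype.ext
        change (a * b, (1 : G) * 1) = (a * b, 1)
        rw [one_mul]
      have h5 : (⟨(a * b, 1), O.mul_mem ha hb, O.one_mem⟩ * ⟨(b⁻¹, b), O.inv_mem hb, hb⟩ :
          O.prod O) = ⟨(a, b), ha, hb⟩ := by
        apply Subtype.ext
        change (a * b * b⁻¹, 1 * b) = (a, b)
        rw [mul_inv_cancel_right, one_mul]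
      have h6 : ν ⟨(a, b), ha, hb⟩ = ν ⟨(a * b, 1), O.mul_mem ha hb, O.one_mem⟩ := by
        rw [← h5, am, h3, mul_one]
      rw [h4]
      exact h6.symm

variable {F : Type} [Field F] (red : integralClosure ℤ ℂ →+* F) {p : ℕ} [hp : Fact p.Prime]
  [CharP F p]

/-- **The sums of central squares** -/
theorem square [Fintype O] (hOp : IsPGroup p O) {a : ℕ} (ha : Nat.card O = p ^ a) {χ : G → ℂ}
    (hχ : IsIrrChar χ) :
    ∃ χ' : (G × G) ⧸ adg hO → ℂ,
      (letI := adg_normal hO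
       IsIrrChar χ' ∧ (∀ g : G × G, ¬ p ∣ orderOf g →
        lam red (MonoidHom.id ((G × G) ⧸ adg hO)) χ' (QuotientGroup.mk' (adg hO) g) =
          lam red (MonoidHom.id (G × G)) (ten χ χ) g) ∧
      (∀ e, asum p red ((O.prod O).map (QuotientGroup.mk' (adg hO))) χ' e (fun _ _ => True) =
        ∑ μ ∈ Irr O, ∑ i ∈ Finset.HasAntidiagonal.antidiagonal (a + e),
          asum p red O χ i.1 (fun _ ϑ => Over μ ϑ) * asum p red O χ i.2 (fun _ ϑ => Over μ ϑ))) ∧
      ∀ d < a, ∑ μ ∈ Irr O, ∑ i ∈ Finset.HasAntidiagonal.antidiagonal d,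
          asum p red O χ i.1 (fun _ ϑ => Over μ ϑ) * asum p red O χ i.2 (fun _ ϑ => Over μ ϑ) = 0
      := by
  have _f : Fintype G := Fintype.ofFinite G
  have _n := adg_normal hO
  have hOn : O.Normal := ⟨fun x hx g => by
    rw [Subgroup.mem_center_iff.1 (hO hx) g, mul_inv_cancel_right]
    exact hx⟩
  have _fq : Fintype ((G × G) ⧸ adg hO) := Fintype.ofFinite _
  have _fp : Fintype (O.prod O) := Fintype.ofFinite _
  have hπ : Function.Surjective (QuotientGroup.mk' (adg hO)) := QuotientGroup.mk'_surjective _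
  have hker : (QuotientGroup.mk' (adg hO)).ker = adg hO := QuotientGroup.ker_mk' _
  have hkp : IsPGroup p (QuotientGroup.mk' (adg hO)).ker := by rw [hker]; exact adg_p hO hOp
  have hkc : (QuotientGroup.mk' (adg hO)).ker ≤ Subgroup.center (G × G) := by
    rw [hker]; exact adg_center hO
  have hka : Nat.card (QuotientGroup.mk' (adg hO)).ker = p ^ a := by
    rw [hker, adg_card hO, ha]
  have hT : ∀ d, asum p red (O.prod O) (ten χ χ) d
      (fun _ ϑ => InKer (QuotientGroup.mk' (adg hO)).ker ϑ) =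
      ∑ μ ∈ Irr O, ∑ i ∈ Finset.HasAntidiagonal.antidiagonal d,
          asum p red O χ i.1 (fun _ ϑ => Over μ ϑ) * asum p red O χ i.2 (fun _ ϑ => Over μ ϑ) := by
    intro d
    rw [hker, asum_ker red (p := p) (center_prod hO hO) (adg_le hO),
      sum_tr hO fun μ => asum p red (O.prod O) (ten χ χ) d (fun _ ϑ => Over μ ϑ)]
    refine Finset.sum_congr rfl fun μ hμ => ?_
    rw [mem_Irr] at hμ
    obtain ⟨a1, -⟩ := lin_of hO hμ
    exact asum_prod red hOp hOp hOn hOn hχ hχ hO hO a1 a1 d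
  obtain ⟨χ', h1, h2⟩ := dom hπ hkp hkc red (ten_irr hχ hχ)
  refine ⟨χ', ⟨h1, h2, fun e => ?_⟩, fun d hd => ?_⟩
  · rw [← hT, asum_quot red hπ hkp hkc hka (by rw [hker]; exact adg_le hO)
      (Subgroup.prod_normal O O) h2]
  · rw [← hT]
    exact asum_small red hπ hkc hka hd

end Pool.Agent.U259.DP
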